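import Pool.Agent.W938.QM.Real
import Pool.Agent.H620R2.GaugeQ.Q8

/-!
# The families of certificates of one verifier, and the finitely many exceptional inputs
-/

set_option autoImplicit false
set_option linter.unusedSectionVars false

namespace Pool.Agent.W938.QM

open Finset Pool.Agent.NPC Pool.Agent.H620R2.Gauge Pool.Agent.W938.Hyb
open Pool.Agent.H628R3.RO (randomOracle)

/-- The oracle agrees with the certificate. -/
def Agree (A : Oracle) (c : Finset (List Bool × Bool)) : Prop := ∀ e ∈ c, A e.1 = e.2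

/-- The lengths of the questions of the circuits are polynomially bounded. -/
lemma gates_bound {C : List Bool → List Gate} (hC : PolyTime (fun z => bits (C z))) :
    ∃ b : Polynomial ℕ, ∀ z q k, Sum.inr (true, q, k) ∈ C z → q.length ≤ b.eval z.length := by
  obtain ⟨q, hq⟩ := (Pool.Agent.H622R2.poly_of_polyTime hC).sz_le
  refine ⟨q.comp (Polynomial.C 4 * Polynomial.X + Polynomial.C 1), fun x => ?_⟩
  have h0 : sz (C x) ≤ (q.comp (Polynomial.C 4 * Polynomial.X + Polynomial.C 1)).eval x.length := by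
    have h1 := length_lt_sz (bits (C x))
    rw [bits_length] at h1
    refine h1.le.trans ((hq _).trans ?_)
    rw [Polynomial.eval_comp]
    apply eval_mono
    have h2 := sz_listBool_le x
    simp only [Polynomial.eval_add, Polynomial.eval_mul, Polynomial.eval_C, Polynomial.eval_X]
    omega
  intro q' k hmem
  have h4 := sz_le_of_mem hmem
  have h5 := length_lt_sz q'
  rw [sz_inr, sz_pair, sz_pair] at h4
  omega

/-- The polynomial versions of the parameters. -/
lemma bnd_eval (r : ℕ) (t q h : Polynomial ℕ) (n : ℕ) :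
    (bnd r t q h).eval n = bnd r (t.eval n) (q.eval n) (h.eval n) := by
  have e : (Gr r t q h).eval n = Gr r (t.eval n) (q.eval n) (h.eval n) := by
    unfold Gr
    simp only [Polynomial.eval_mul, Polynomial.eval_add, Polynomial.eval_pow,
      Polynomial.eval_natCast, Polynomial.eval_one, Polynomial.eval_ofNat]
  unfold bnd
  rw [Polynomial.eval_add, Polynomial.eval_mul, Polynomial.eval_pow, e]
  simp

lemma ev (a b c l : Polynomial ℕ) (n : ℕ) : (a.comp l + b.comp (c.comp l)).eval n =
    a.eval (l.eval n) + b.eval (c.eval (l.eval n)) := by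
  rw [Polynomial.eval_add, Polynomial.eval_comp, Polynomial.eval_comp, Polynomial.eval_comp]

theorem fam (M : Alg) (C : List Bool → List Gate) (p : Polynomial ℕ) (r : ℕ)
    (hC : PolyTime (fun z => bits (C z))) (hr : ∀ z, numQ (C z) ≤ r) :
    ∃ P : Polynomial ℕ, ∀ x : List Bool, ∃ (T : Set (Finset (List Bool × Bool))) (Bad : Set Oracle),
      (∀ c ∈ T, c.card ≤ P.eval x.length ∧ ∀ e ∈ c, e.1.length ≤ P.eval x.length) ∧
      MeasurableSet Bad ∧ randomOracle.real Bad ≤ (1 / 2) ^ (2 * x.length + 2) ∧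
      ∀ A : Oracle, A ∉ Bad →
        ((∃ w : List Bool, w.length ≤ p.eval x.length ∧
          YesE M C (p.eval x.length) (p.eval x.length) (pairBits w x) A) → ∃ c ∈ T, Agree A c) ∧
        ((∀ w : List Bool, w.length ≤ p.eval x.length →
          NoE M C (p.eval x.length) (p.eval x.length) (pairBits w x) A) →
            ¬ ∃ c ∈ T, Agree A c) := by
  classical
  obtain ⟨qb, hqb⟩ := M.out_local
  obtain ⟨ob, hob⟩ := M.out_length
  obtain ⟨cb, hcb⟩ := gates_bound hC
  set ln : Polynomial ℕ := 2 * p + 1 + Polynomial.X with hln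
  have hlen : ∀ w x : List Bool, w.length ≤ p.eval x.length →
      (pairBits w x).length ≤ ln.eval x.length := by
    intro w x hw
    rw [length_pairBits]
    simp only [hln, Polynomial.eval_add, Polynomial.eval_mul, Polynomial.eval_one,
      Polynomial.eval_X, Polynomial.eval_ofNat]
    omega
  set t : Polynomial ℕ := M.p.comp ln with ht
  set q : Polynomial ℕ := qb.comp ln + cb.comp (ob.comp ln) with hq
  set h : Polynomial ℕ := p + 2 * Polynomial.X + 3 with hh
  refine ⟨bnd r t q h + q, fun x => ?_⟩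
  set n := x.length with hn
  have hd : ∀ w : List Bool, ∃ Ce : Finset (List Bool) → Oracle → Prop, w.length ≤ p.eval n →
      ((∀ (H : Finset (List Bool)) (A A' : Oracle), (∀ z ∈ H, A z = A' z) → Ce H A → Ce H A') ∧
      (∀ H A, Ce H A → H ⊆ Sq (q.eval n) ∧ H.card ≤ bnd r (t.eval n) (q.eval n) (h.eval n)) ∧
      MeasurableSet {A : Oracle | (YesE M C (p.eval n) (p.eval n) (pairBits w x) A ∧
        ∀ H, ¬ Ce H A) ∨ (NoE M C (p.eval n) (p.eval n) (pairBits w x) A ∧ ∃ H, Ce H A)} ∧
      randomOracle.real {A : Oracle | (YesE M C (p.eval n) (p.eval n) (pairBits w x) A ∧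
        ∀ H, ¬ Ce H A) ∨ (NoE M C (p.eval n) (p.eval n) (pairBits w x) A ∧ ∃ H, Ce H A)}
          ≤ (1 / 2) ^ (h.eval n)) := by
    intro w
    by_cases hw : w.length ≤ p.eval n
    · have hl := hlen w x hw
      obtain ⟨Ce, hCe⟩ := dev M C (p.eval n) (p.eval n) (pairBits w x) r (t.eval n) (q.eval n)
        (h.eval n)
        (fun A => by
          obtain ⟨S, h1, h2, h3⟩ := hqb A (pairBits w x)
          refine ⟨S, h1.trans ?_, fun z hz => (h2 z hz).trans ?_, h3⟩
          · rw [ht, Polynomial.eval_comp]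
            exact eval_mono _ hl
          · rw [hq, ev]
            exact (eval_mono _ hl).trans (Nat.le_add_right _ _))
        (fun A z hz q' k hk => by
          have h1 := hcb z q' k hk
          have h2 := hob A _ z hz
          refine h1.trans ((eval_mono cb (h2.trans (eval_mono ob hl))).trans ?_)
          rw [hq, ev]
          exact Nat.le_add_left _ _)
        hr
      exact ⟨Ce, fun _ => hCe⟩
    · exact ⟨fun _ _ => False, fun hw' => absurd hw' hw⟩
  choose Ce hCe using hd
  set B : List Bool → Set Oracle := fun w =>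
    {A : Oracle | (YesE M C (p.eval n) (p.eval n) (pairBits w x) A ∧
        ∀ H, ¬ Ce w H A) ∨ (NoE M C (p.eval n) (p.eval n) (pairBits w x) A ∧ ∃ H, Ce w H A)} with hB
  refine ⟨{c | ∃ w : List Bool, w.length ≤ p.eval n ∧ ∃ (H : Finset (List Bool)) (A : Oracle),
    Ce w H A ∧ c = H.image fun z => (z, A z)}, ⋃ w ∈ Sq (p.eval n), B w, ?_, ?_, ?_, ?_⟩
  · rintro c ⟨w, hw, H, A, hc, rfl⟩
    obtain ⟨h1, h2⟩ := (hCe w hw).2.1 H A hc
    rw [Polynomial.eval_add, bnd_eval]
    refine ⟨?_, ?_⟩
    · exact (Finset.card_image_le.trans h2).trans (Nat.le_add_right _ _)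
    · intro e he
      obtain ⟨z, hz, rfl⟩ := Finset.mem_image.1 he
      exact (mem_Sq.1 (h1 hz)).trans (Nat.le_add_left _ _)
  · refine Finset.measurableSet_biUnion _ fun w hw => ?_
    exact (hCe w (mem_Sq.1 hw)).2.2.1
  · refine (MeasureTheory.measureReal_biUnion_finset_le _ _).trans ?_
    have h1 : ∑ w ∈ Sq (p.eval n), randomOracle.real (B w) ≤
        ∑ _w ∈ Sq (p.eval n), ((1 : ℝ) / 2) ^ (h.eval n) :=
      Finset.sum_le_sum fun w hw => (hCe w (mem_Sq.1 hw)).2.2.2
    refine h1.trans ?_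
    rw [Finset.sum_const, nsmul_eq_mul]
    have h2 : ((Sq (p.eval n)).card : ℝ) ≤ 2 ^ (p.eval n + 1) := by
      have := card_Sq (p.eval n)
      have h3 : (Sq (p.eval n)).card ≤ 2 ^ (p.eval n + 1) := by omega
      exact_mod_cast h3
    have h3 : h.eval n = (p.eval n + 1) + (2 * n + 2) := by
      simp only [hh, Polynomial.eval_add, Polynomial.eval_mul, Polynomial.eval_X,
        Polynomial.eval_ofNat]
      omega
    calc ((Sq (p.eval n)).card : ℝ) * ((1 : ℝ) / 2) ^ (h.eval n)
        ≤ 2 ^ (p.eval n + 1) * ((1 : ℝ) / 2) ^ (h.eval n) := by gcongr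
      _ = (1 / 2) ^ (2 * n + 2) := by
          rw [h3, pow_add (1 / 2 : ℝ), ← mul_assoc, ← mul_pow]
          norm_num
  · intro A hA
    have hA' : ∀ w : List Bool, w.length ≤ p.eval n → A ∉ B w := by
      intro w hw hAw
      exact hA (Set.mem_biUnion (Finset.mem_coe.2 (mem_Sq.2 hw)) hAw)
    refine ⟨?_, ?_⟩
    · rintro ⟨w, hw, hy⟩
      have h1 : ∃ H, Ce w H A := by
        by_contra hc
        exact hA' w hw (Or.inl ⟨hy, fun H hH => hc ⟨H, hH⟩⟩)
      obtain ⟨H, hH⟩ := h1
      refine ⟨H.image fun z => (z, A z), ⟨w, hw, H, A, hH, rfl⟩, ?_⟩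
      intro e he
      obtain ⟨z, -, rfl⟩ := Finset.mem_image.1 he
      rfl
    · rintro hno ⟨c, ⟨w, hw, H, A', hH, rfl⟩, hag⟩
      refine hA' w hw (Or.inr ⟨hno w hw, H, ?_⟩)
      refine (hCe w hw).1 H A' A ?_ hH
      intro z hz
      exact (hag (z, A' z) (Finset.mem_image_of_mem _ hz)).symm

/-! ### The lemma of Borel and Cantelli -/

/-- The code of a string. -/
def cd : List Bool → ℕ
  | [] => 1
  | b :: x => 2 * cd x + b.toNat

lemma cd_pos : ∀ x : List Bool, 1 ≤ cd x
  | [] => le_rfl
  | b :: x => by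
    have := cd_pos x
    simp only [cd]
    omega

lemma cd_lt : ∀ x : List Bool, cd x < 2 ^ (x.length + 1)
  | [] => by simp [cd]
  | b :: x => by
    have := cd_lt x
    have hb : b.toNat ≤ 1 := Bool.toNat_le b
    simp only [cd, List.length_cons]
    rw [pow_succ]
    omega

lemma cd_inj : ∀ x y : List Bool, cd x = cd y → x = y
  | [], [], _ => rfl
  | [], b :: y, h => by
    have := cd_pos y
    simp only [cd] at h
    omega
  | b :: x, [], h => by
    have := cd_pos x
    simp only [cd] at h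
    omega
  | b :: x, c :: y, h => by
    simp only [cd] at h
    have h1 : b.toNat ≤ 1 := Bool.toNat_le b
    have h2 : c.toNat ≤ 1 := Bool.toNat_le c
    have h3 : cd x = cd y := by omega
    have h4 : b.toNat = c.toNat := by omega
    have h5 : b = c := by
      cases b <;> cases c <;> simp at h4 ⊢
    rw [cd_inj x y h3, h5]

theorem bc (Bad : List Bool → Set Oracle)
    (h : ∀ x, randomOracle.real (Bad x) ≤ (1 / 2) ^ (2 * x.length + 2)) :
    ∀ᵐ A ∂randomOracle, {x | A ∈ Bad x}.Finite := by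
  refine MeasureTheory.ae_finite_setOfPred_mem ?_
  have hs : Summable fun x : List Bool => 1 / ((cd x : ℕ) : ℝ) ^ 2 :=
    (Real.summable_one_div_nat_pow.2 (by norm_num : 1 < 2)).comp_injective
      (i := cd) (fun x y hxy => cd_inj x y hxy)
  refine ne_top_of_le_ne_top hs.tsum_ofReal_ne_top (ENNReal.tsum_le_tsum fun x => ?_)
  rw [← ENNReal.ofReal_toReal (MeasureTheory.measure_ne_top randomOracle (Bad x))]
  refine ENNReal.ofReal_le_ofReal ((h x).trans ?_)
  have h1 : ((cd x : ℕ) : ℝ) ≤ 2 ^ (x.length + 1) := by exact_mod_cast (cd_lt x).le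
  have h2 : (0 : ℝ) < ((cd x : ℕ) : ℝ) := by exact_mod_cast cd_pos x
  have h3 : ((1 : ℝ) / 2) ^ (2 * x.length + 2) = 1 / (2 ^ (x.length + 1)) ^ 2 := by
    rw [one_div_pow, ← pow_mul]
    congr 2
    ring
  rw [h3]
  gcongr

end Pool.Agent.W938.QM
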