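import Pool.Agent.H620R2.GaugeQ.Defs
import Pool.Agent.H620R2.Gauge2.Defs
import Pool.Agent.W938.Hyb.Defs

/-!
# Quantum witnesses, and verifiers which ask few questions in superposition

A verifier first makes a classical polynomial-time computation, which depends on the input and on a
classical witness and which may ask arbitrarily many (that is, polynomially many) adaptive
questions to the oracle. Then it runs a quantum circuit of polynomial size on the quantum witness
and on ancillas; the circuit contains a bounded number of oracle gates.
-/

set_option autoImplicit false

namespace Pool.Agent.W938.QM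

open Pool.Agent.NPC Pool.Agent.H620R2.Gauge Pool.Agent.W938.Hyb

/-- The number of the oracle gates of a circuit. -/
def numQ : List Gate → ℕ
  | [] => 0
  | Sum.inr (true, _, _) :: l => numQ l + 1
  | _ :: l => numQ l

/-- The probability that the circuit with the gates `l` accepts, relative to the oracle `A`, the
witness state `ψ` (a state of `b` qubits, with complex amplitudes); there are `m` further qubits
which are `0` in the beginning. The circuit accepts if the measurement of the qubit `0` of the
final state gives `1`. The gates are real matrices, hence they act on the real part and on the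
imaginary part of the state separately. -/
noncomputable def accW (A : Oracle) (l : List Gate) {b : ℕ} (m : ℕ) (ψ : (Fin b → Bool) → ℂ) : ℝ :=
  ∑ s : Fin (b + m) → Bool, if rd s 0 then
    circAct A l (load m fun t => (ψ t).re) s ^ 2 + circAct A l (load m fun t => (ψ t).im) s ^ 2
  else 0

/-- The language `L` is in `QMA` relative to `A`, with a verifier which asks at most `r` questions
in superposition. The verifier computes in polynomial time relative to `A`, from the input `x` and
a classical witness `w`, the string `F ⟨w, x⟩` and then, in polynomial time, a quantum circuit with
at most `r` oracle gates. The circuit is applied to the quantum witness `ψ`, a state of `p(|x|)`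
qubits, and to `p(|x|)` ancillas. -/
def IsQMA (r : ℕ) (A : Oracle) (L : Set (List Bool)) : Prop :=
  ∃ (F : List Bool → List Bool) (C : List Bool → List Gate) (p : Polynomial ℕ),
    IsFP A F ∧ PolyTime (fun z => bits (C z)) ∧ (∀ z, numQ (C z) ≤ r) ∧
    ∀ x : List Bool,
      (x ∈ L → ∃ (w : List Bool) (ψ : (Fin (p.eval x.length) → Bool) → ℂ),
        w.length ≤ p.eval x.length ∧ ∑ t, ‖ψ t‖ ^ 2 = 1 ∧
        2 / 3 ≤ accW A (C (F (pairBits w x))) (p.eval x.length) ψ) ∧
      (x ∉ L → ∀ (w : List Bool) (ψ : (Fin (p.eval x.length) → Bool) → ℂ),
        w.length ≤ p.eval x.length → ∑ t, ‖ψ t‖ ^ 2 = 1 →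
        accW A (C (F (pairBits w x))) (p.eval x.length) ψ ≤ 1 / 3)

/-- The join of two oracles: the first bit of a question tells which of them is asked. -/
def join (A B : Oracle) : Oracle
  | [] => false
  | false :: z => A z
  | true :: z => B z

end Pool.Agent.W938.QM
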