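import Pool.Agent.W938.Hyb.Circ
import Pool.Agent.W938.QM.Defs

/-!
# The weights of the questions of a circuit, and the distance of the runs for two oracles
-/

set_option autoImplicit false
set_option linter.unusedSectionVars false

namespace Pool.Agent.W938.QM

open Finset Pool.Agent.H620R2.Gauge Pool.Agent.W938.Hyb

variable {m : ℕ}

/-- The question of an oracle gate in the basis state `s`. -/
def qn (q : List ℕ) (k : ℕ) (s : Fin m → Bool) : List Bool :=
  if h : k < m then q.map (rd (Function.update s ⟨k, h⟩ false)) else []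

/-- The weight with which the gate asks the string `z`. -/
def gw : Gate → ((Fin m → Bool) → ℝ) → List Bool → ℝ
  | Sum.inr (true, q, k), ψ, z => if k < m then ∑ s, if qn q k s = z then ψ s ^ 2 else 0 else 0
  | _, _, _ => 0

/-- The total weight with which the circuit asks the string `z`. -/
noncomputable def wq (A : Oracle) : List Gate → ((Fin m → Bool) → ℝ) → List Bool → ℝ
  | [], _, _ => 0
  | g :: l, ψ, z => gw g ψ z + wq A l (gateAct A g ψ) z

lemma gw_nonneg (g : Gate) (ψ : (Fin m → Bool) → ℝ) (z : List Bool) : 0 ≤ gw g ψ z := by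
  rcases g with i | ⟨b, q, k⟩
  · exact le_rfl
  · cases b with
    | false => exact le_rfl
    | true =>
      simp only [gw]
      split_ifs
      · refine Finset.sum_nonneg fun s _ => ?_
        split_ifs
        · positivity
        · exact le_rfl
      · exact le_rfl

lemma wq_nonneg (A : Oracle) : ∀ (l : List Gate) (ψ : (Fin m → Bool) → ℝ) (z : List Bool),
    0 ≤ wq A l ψ z
  | [], _, _ => le_rfl
  | g :: l, ψ, z => add_nonneg (gw_nonneg g ψ z) (wq_nonneg A l _ z)

/-- The weight of a set of strings. -/
lemma sum_gw (q : List ℕ) (k : ℕ) (ψ : (Fin m → Bool) → ℝ) (T : Finset (List Bool)) :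
    ∑ z ∈ T, gw (Sum.inr (true, q, k)) ψ z =
      if k < m then ∑ s, if qn q k s ∈ T then ψ s ^ 2 else 0 else 0 := by
  simp only [gw]
  split_ifs with h
  · rw [Finset.sum_comm]
    refine Finset.sum_congr rfl fun s _ => ?_
    rw [Finset.sum_ite_eq]
  · simp

lemma sum_gw_le (g : Gate) (ψ : (Fin m → Bool) → ℝ) (T : Finset (List Bool)) :
    ∑ z ∈ T, gw g ψ z ≤ ∑ s, ψ s ^ 2 := by
  have h0 : 0 ≤ ∑ s, ψ s ^ 2 := Finset.sum_nonneg fun s _ => sq_nonneg _
  rcases g with i | ⟨b, q, k⟩
  · simpa [gw] using h0
  · cases b with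
    | false => simpa [gw] using h0
    | true =>
      rw [sum_gw]
      split_ifs
      · refine Finset.sum_le_sum fun s _ => ?_
        split_ifs
        · exact le_rfl
        · positivity
      · exact h0

lemma sum_wq_le (A : Oracle) (T : Finset (List Bool)) : ∀ (l : List Gate)
    (ψ : (Fin m → Bool) → ℝ), ∑ z ∈ T, wq A l ψ z ≤ numQ l * ∑ s, ψ s ^ 2
  | [], ψ => by simp [wq, numQ]
  | g :: l, ψ => by
    have ih := sum_wq_le A T l (gateAct A g ψ)
    rw [gateAct_norm] at ih
    simp only [wq]
    rw [Finset.sum_add_distrib]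
    rcases g with i | ⟨b, q, k⟩
    · simpa [gw, numQ] using ih
    · cases b with
      | false => simpa [gw, numQ] using ih
      | true =>
        have h1 := sum_gw_le (Sum.inr (true, q, k)) ψ T
        simp only [numQ]
        push_cast
        linarith

/-- If the oracles agree on the question, the gate does the same. -/
lemma gate_same {A A' : Oracle} {q : List ℕ} {k : ℕ} {s : Fin m → Bool}
    (h : A (qn q k s) = A' (qn q k s)) (ψ : (Fin m → Bool) → ℝ) :
    gateAct A (Sum.inr (true, q, k)) ψ s = gateAct A' (Sum.inr (true, q, k)) ψ s := by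
  simp only [gateAct]
  unfold flipIf
  unfold qn at h
  by_cases hk : k < m
  · simp only [hk, dite_true] at h ⊢
    rw [h]
  · simp only [hk, dite_false]

lemma gate_diff (A A' : Oracle) (T : Finset (List Bool)) (q : List ℕ) (k : ℕ)
    (ψ : (Fin m → Bool) → ℝ)
    (hT : ∀ s : Fin m → Bool, k < m → A (qn q k s) ≠ A' (qn q k s) → qn q k s ∈ T) :
    ∑ s, (gateAct A (Sum.inr (true, q, k)) ψ s - gateAct A' (Sum.inr (true, q, k)) ψ s) ^ 2
      ≤ 4 * ∑ z ∈ T, gw (Sum.inr (true, q, k)) ψ z := by
  rw [sum_gw]
  by_cases hk : k < m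
  · rw [if_pos hk]
    set t : (Fin m → Bool) → (Fin m → Bool) := fun s => Function.update s ⟨k, hk⟩ (!(s ⟨k, hk⟩))
      with ht
    have htt : Function.Involutive t := by
      intro s
      funext j
      by_cases hj : j = ⟨k, hk⟩
      · subst hj; simp [t]
      · simp [t, Function.update_of_ne hj]
    have hqt : ∀ s, qn q k (t s) = qn q k s := by
      intro s
      simp only [qn, hk, dite_true, t, Function.update_idem]
    have hf : ∀ (B : Oracle) s, gateAct B (Sum.inr (true, q, k)) ψ s = ψ s ∨
        gateAct B (Sum.inr (true, q, k)) ψ s = ψ (t s) := by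
      intro B s
      simp only [gateAct, flipIf, hk, dite_true]
      cases hB : B (q.map (rd (Function.update s ⟨k, hk⟩ false)))
      · left
        congr 1
        rw [Bool.xor_false]
        exact Function.update_eq_self _ _
      · right
        congr 1
        rw [Bool.xor_true]
    have h1 : ∀ s, (gateAct A (Sum.inr (true, q, k)) ψ s -
        gateAct A' (Sum.inr (true, q, k)) ψ s) ^ 2 ≤
        (if qn q k s ∈ T then 2 * ψ s ^ 2 + 2 * ψ (t s) ^ 2 else 0) := by
      intro s
      by_cases hs : A (qn q k s) = A' (qn q k s)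
      · rw [gate_same hs, sub_self]
        simp only [ne_eq, OfNat.ofNat_ne_zero, not_false_eq_true, zero_pow]
        split_ifs
        · positivity
        · exact le_rfl
      · rw [if_pos (hT s hk hs)]
        have ha := sq_nonneg (ψ s + ψ (t s))
        have hb := sq_nonneg (ψ s)
        have hc := sq_nonneg (ψ (t s))
        rcases hf A s with e1 | e1 <;> rcases hf A' s with e2 | e2 <;> rw [e1, e2]
        · rw [sub_self]; simp only [ne_eq, OfNat.ofNat_ne_zero, not_false_eq_true, zero_pow]
          positivity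
        · nlinarith
        · nlinarith
        · rw [sub_self]; simp only [ne_eq, OfNat.ofNat_ne_zero, not_false_eq_true, zero_pow]
          positivity
    refine (Finset.sum_le_sum fun s _ => h1 s).trans (le_of_eq ?_)
    have h2 : ∑ s, (if qn q k s ∈ T then ψ (t s) ^ 2 else 0) =
        ∑ s, (if qn q k s ∈ T then ψ s ^ 2 else 0) := by
      have := Equiv.sum_comp htt.toPerm (fun s => if qn q k s ∈ T then ψ s ^ 2 else 0)
      rw [← this]
      refine Finset.sum_congr rfl fun s _ => ?_
      simp only [Function.Involutive.coe_toPerm, hqt]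
    have h3 : ∀ s, (if qn q k s ∈ T then 2 * ψ s ^ 2 + 2 * ψ (t s) ^ 2 else 0) =
        2 * (if qn q k s ∈ T then ψ s ^ 2 else 0) + 2 * (if qn q k s ∈ T then ψ (t s) ^ 2 else 0) := by
      intro s
      split_ifs
      · rfl
      · ring
    rw [Finset.sum_congr rfl fun s _ => h3 s, Finset.sum_add_distrib, ← Finset.mul_sum,
      ← Finset.mul_sum, h2]
    ring
  · rw [if_neg hk, mul_zero]
    refine le_of_eq (Finset.sum_eq_zero fun s _ => ?_)
    simp only [gateAct, flipIf, hk, dite_false, sub_self]
    ring

lemma circAct_sub (A : Oracle) : ∀ (l : List Gate) (ψ φ : (Fin m → Bool) → ℝ),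
    circAct A l (fun s => ψ s - φ s) = fun s => circAct A l ψ s - circAct A l φ s
  | [], _, _ => rfl
  | g :: l, ψ, φ => by
    simp only [circAct]
    rw [gateAct_sub]
    exact circAct_sub A l _ _

lemma circ_norm (A : Oracle) : ∀ (l : List Gate) (ψ : (Fin m → Bool) → ℝ),
    ∑ s, circAct A l ψ s ^ 2 = ∑ s, ψ s ^ 2
  | [], _ => rfl
  | g :: l, ψ => by
    simp only [circAct]
    rw [circ_norm A l, gateAct_norm]

/-- All questions of the circuit belong to `T` if the oracles do not agree on them. -/
def Cov (m : ℕ) (A A' : Oracle) (T : Finset (List Bool)) (l : List Gate) : Prop :=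
  ∀ q k, Sum.inr (true, q, k) ∈ l → ∀ s : Fin m → Bool, k < m →
    A (qn q k s) ≠ A' (qn q k s) → qn q k s ∈ T

/-- The distance of the final states. -/
lemma circ_diff (A A' : Oracle) (T : Finset (List Bool)) : ∀ (l : List Gate)
    (_ : Cov m A A' T l) (ψ : (Fin m → Bool) → ℝ),
    ∑ s, (circAct A l ψ s - circAct A' l ψ s) ^ 2 ≤ numQ l * (4 * ∑ z ∈ T, wq A l ψ z)
  | [], _, ψ => by simp [circAct, numQ]
  | g :: l, hT, ψ => by
    have ih := circ_diff A A' T l (fun q k hq => hT q k (List.mem_cons_of_mem _ hq))
      (gateAct A g ψ)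
    simp only [circAct, wq]
    rw [Finset.sum_add_distrib]
    have hsame : (∀ ψ : (Fin m → Bool) → ℝ, gateAct A g ψ = gateAct A' g ψ) → numQ (g :: l) = numQ l →
        ∑ s, (circAct A l (gateAct A g ψ) s - circAct A' l (gateAct A' g ψ) s) ^ 2 ≤
          (numQ (g :: l) : ℝ) * (4 * (∑ z ∈ T, gw g ψ z + ∑ z ∈ T, wq A l (gateAct A g ψ) z)) := by
      intro h1 h2
      rw [← h1, h2]
      refine ih.trans ?_
      have h3 : 0 ≤ ∑ z ∈ T, gw g ψ z := Finset.sum_nonneg fun z _ => gw_nonneg g ψ z
      have h4 : (0 : ℝ) ≤ numQ l := Nat.cast_nonneg _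
      refine mul_le_mul_of_nonneg_left ?_ h4
      linarith
    rcases g with i | ⟨b, q, k⟩
    · exact hsame (fun ψ => rfl) rfl
    · cases b with
      | false => exact hsame (fun ψ => rfl) rfl
      | true =>
        have hg := gate_diff A A' T q k ψ (fun s hk hs => hT q k List.mem_cons_self s hk hs)
        have hb : ∑ s, (circAct A' l (gateAct A (Sum.inr (true, q, k)) ψ) s -
            circAct A' l (gateAct A' (Sum.inr (true, q, k)) ψ) s) ^ 2 ≤
            4 * ∑ z ∈ T, gw (Sum.inr (true, q, k)) ψ z := by
          have e : (fun s => circAct A' l (gateAct A (Sum.inr (true, q, k)) ψ) s -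
              circAct A' l (gateAct A' (Sum.inr (true, q, k)) ψ) s) = circAct A' l (fun s =>
              gateAct A (Sum.inr (true, q, k)) ψ s - gateAct A' (Sum.inr (true, q, k)) ψ s) := by
            rw [circAct_sub]
          have e2 := circ_norm A' l (fun s =>
              gateAct A (Sum.inr (true, q, k)) ψ s - gateAct A' (Sum.inr (true, q, k)) ψ s)
          rw [← e] at e2
          rw [e2]
          exact hg
        set W1 := ∑ z ∈ T, gw (Sum.inr (true, q, k)) ψ z with hW1
        set W2 := ∑ z ∈ T, wq A l (gateAct A (Sum.inr (true, q, k)) ψ) z with hW2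
        have hW1n : 0 ≤ W1 := Finset.sum_nonneg fun z _ => gw_nonneg _ ψ z
        have hW2n : 0 ≤ W2 := Finset.sum_nonneg fun z _ => wq_nonneg A l _ z
        have hnum : numQ (Sum.inr (true, q, k) :: l) = numQ l + 1 := rfl
        rw [hnum]
        set c : ℝ := (numQ l : ℝ) with hc
        have hc0 : 0 ≤ c := Nat.cast_nonneg _
        push_cast
        rw [← hc]
        set a : (Fin m → Bool) → ℝ := fun s =>
          circAct A l (gateAct A (Sum.inr (true, q, k)) ψ) s -
            circAct A' l (gateAct A (Sum.inr (true, q, k)) ψ) s with ha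
        set d : (Fin m → Bool) → ℝ := fun s =>
          circAct A' l (gateAct A (Sum.inr (true, q, k)) ψ) s -
            circAct A' l (gateAct A' (Sum.inr (true, q, k)) ψ) s with hd
        have hsum : ∀ s, circAct A l (gateAct A (Sum.inr (true, q, k)) ψ) s -
            circAct A' l (gateAct A' (Sum.inr (true, q, k)) ψ) s = a s + d s := by
          intro s
          simp only [ha, hd]
          ring
        simp only [hsum]
        change ∑ s, a s ^ 2 ≤ c * (4 * W2) at ih
        change ∑ s, d s ^ 2 ≤ 4 * W1 at hb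
        rcases hc0.eq_or_lt with h0 | hpos
        · rw [← h0, zero_mul] at ih
          have ha0 : ∀ s, a s = 0 := by
            intro s
            have h1 := Finset.single_le_sum (f := fun s => a s ^ 2) (fun s _ => sq_nonneg _)
              (Finset.mem_univ s)
            have h2 : a s ^ 2 ≤ 0 := h1.trans ih
            exact pow_eq_zero_iff (two_ne_zero) |>.1 (le_antisymm h2 (sq_nonneg _))
          simp only [ha0, zero_add]
          rw [← h0]
          linarith
        · have h1 : ∀ s, (a s + d s) ^ 2 ≤ (c + 1) / c * a s ^ 2 + (c + 1) * d s ^ 2 := by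
            intro s
            have h2 : (c + 1) / c * a s ^ 2 + (c + 1) * d s ^ 2 - (a s + d s) ^ 2 =
                (a s - c * d s) ^ 2 / c := by
              field_simp
              ring
            have h3 : 0 ≤ (a s - c * d s) ^ 2 / c := by positivity
            linarith
          calc ∑ s, (a s + d s) ^ 2 ≤ ∑ s, ((c + 1) / c * a s ^ 2 + (c + 1) * d s ^ 2) :=
                Finset.sum_le_sum fun s _ => h1 s
            _ = (c + 1) / c * ∑ s, a s ^ 2 + (c + 1) * ∑ s, d s ^ 2 := by
                rw [Finset.sum_add_distrib, Finset.mul_sum, Finset.mul_sum]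
            _ ≤ (c + 1) / c * (c * (4 * W2)) + (c + 1) * (4 * W1) := by gcongr
            _ = (c + 1) * (4 * (W1 + W2)) := by
                field_simp
                ring

/-- The probability that the circuit accepts, when it starts in the state `ψ`. -/
noncomputable def accS (A : Oracle) (l : List Gate) (ψ : (Fin m → Bool) → ℝ) : ℝ :=
  ∑ s, if rd s 0 then circAct A l ψ s ^ 2 else 0

/-- If a circuit accepts with probability at least `2/3` for the oracle `A` and at most `1/3` for the
oracle `A'`, then it asks the strings on which the two oracles differ with a large weight. -/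
lemma weight_far (A A' : Oracle) (T : Finset (List Bool)) (l : List Gate) (hT : Cov m A A' T l)
    (ψ : (Fin m → Bool) → ℝ) (hψ : ∑ s, ψ s ^ 2 = 1) (h1 : 2 / 3 ≤ accS A l ψ)
    (h2 : accS A' l ψ ≤ 1 / 3) (R : ℝ) (hR0 : 0 < R) (hR : (numQ l : ℝ) ≤ R) :
    1 / (144 * R) ≤ ∑ z ∈ T, wq A l ψ z := by
  have h3 := circ_diff A A' T l hT ψ
  have hn1 := circ_norm A l ψ
  have hn2 := circ_norm A' l ψ
  rw [hψ] at hn1 hn2
  have h4 : accS A l ψ - accS A' l ψ ≤
      ∑ s, (6 * (circAct A l ψ s - circAct A' l ψ s) ^ 2 +
        (circAct A l ψ s ^ 2 + circAct A' l ψ s ^ 2) / 12) := by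
    unfold accS
    rw [← Finset.sum_sub_distrib]
    refine Finset.sum_le_sum fun s _ => ?_
    set u := circAct A l ψ s
    set v := circAct A' l ψ s
    have h5 : u ^ 2 - v ^ 2 ≤ 6 * (u - v) ^ 2 + (u ^ 2 + v ^ 2) / 12 := by
      nlinarith [sq_nonneg (12 * (u - v) - (u + v)), sq_nonneg (u - v)]
    have h6 : 0 ≤ 6 * (u - v) ^ 2 + (u ^ 2 + v ^ 2) / 12 := by positivity
    split_ifs
    · exact h5
    · linarith
  rw [Finset.sum_add_distrib, ← Finset.mul_sum, ← Finset.sum_div, Finset.sum_add_distrib, hn1,
    hn2] at h4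
  set W := ∑ z ∈ T, wq A l ψ z with hW
  have hW0 : 0 ≤ W := Finset.sum_nonneg fun z _ => wq_nonneg A l ψ z
  have h7 : (numQ l : ℝ) * (4 * W) ≤ R * (4 * W) := mul_le_mul_of_nonneg_right hR (by positivity)
  rw [div_le_iff₀ (by positivity)]
  nlinarith

end Pool.Agent.W938.QM
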