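import Pool.Agent.W938.QM.Defs
import Pool.Agent.W938.QM.Hybrid
import Pool.Agent.W938.QM.Orc
import Pool.Agent.H620R2.Gauge.A1

/-!
# The certificates for one input and one classical witness
-/

set_option autoImplicit false
set_option linter.unusedSectionVars false

namespace Pool.Agent.W938.QM

open Finset Pool.Agent.NPC Pool.Agent.H620R2.Gauge Pool.Agent.W938.Hyb Pool.Agent.W938.CQ
open Pool.Agent.H722R2.AA Pool.Agent.H746R2.AA Pool.Agent.H703R2.AA Pool.Agent.H703R2.AA.Pr
open Pool.Agent.H628R3.RO (randomOracle)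

/-- The quantum circuit which is used for the string `u` (the pair of the classical witness and the
input). -/
def circ (M : Alg) (C : List Bool → List Gate) (A : Oracle) (u : List Bool) : List Gate :=
  match M.out A u with
  | none => []
  | some z => C z

/-- Some witness state is accepted with large probability. -/
def YesE (M : Alg) (C : List Bool → List Gate) (b m : ℕ) (u : List Bool) (A : Oracle) : Prop :=
  ∃ ψ : (Fin b → Bool) → ℝ, ∑ t, ψ t ^ 2 = 1 ∧ 2 / 3 ≤ accS A (circ M C A u) (load m ψ)

/-- All witness states are accepted with small probability. -/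
def NoE (M : Alg) (C : List Bool → List Gate) (b m : ℕ) (u : List Bool) (A : Oracle) : Prop :=
  ∀ ψ : (Fin b → Bool) → ℝ, ∑ t, ψ t ^ 2 = 1 → accS A (circ M C A u) (load m ψ) ≤ 1 / 3

/-- The exponent. -/
def Jr (r : ℕ) : ℕ := 288 * (r + 1) ^ 2

/-- The base. -/
def Gr {K : Type} [CommSemiring K] (r : ℕ) (t q h : K) : K :=
  16 * ((r : K) + 1) * (2 * ((t + r) + ((r : K) + 1)) * (q + 2) +
    2 * (2 * (288 * ((r : K) + 1) ^ 2) + h)) * (144 * ((r : K) + 1)) ^ 2

/-- The bound for the number of the strings in a certificate. -/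
def bnd {K : Type} [CommSemiring K] (r : ℕ) (t q h : K) : K :=
  (t + r) + ((r : K) + 1) * Gr r t q h ^ Jr r

lemma load_norm {b m : ℕ} (ψ : (Fin b → Bool) → ℝ) : ∑ s, load m ψ s ^ 2 = ∑ t, ψ t ^ 2 :=
  nsq_load ψ

lemma accS_local {A A' : Oracle} {m : ℕ} {q : ℕ} (l : List Gate)
    (hl : ∀ q' k, Sum.inr (true, q', k) ∈ l → q'.length ≤ q) (h : ∀ z ∈ Sq q, A z = A' z)
    (ψ : (Fin m → Bool) → ℝ) : accS A l ψ = accS A' l ψ := by
  unfold accS
  rw [circAct_local l (fun q' k hq y hy => h y (mem_Sq.2 (by rw [hy]; exact hl q' k hq)))]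

theorem dev (M : Alg) (C : List Bool → List Gate) (b m : ℕ) (u : List Bool) (r t q h : ℕ)
    (hS : ∀ A : Oracle, ∃ S : Finset (List Bool), S.card ≤ t ∧ (∀ z ∈ S, z.length ≤ q) ∧
      ∀ A' : Oracle, (∀ z ∈ S, A' z = A z) → M.out A' u = M.out A u)
    (hq : ∀ (A : Oracle) z, M.out A u = some z → ∀ q' k, Sum.inr (true, q', k) ∈ C z →
      q'.length ≤ q)
    (hr : ∀ z, numQ (C z) ≤ r) :
    ∃ Ce : Finset (List Bool) → Oracle → Prop,
      (∀ (H : Finset (List Bool)) (A A' : Oracle), (∀ z ∈ H, A z = A' z) → Ce H A → Ce H A') ∧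
      (∀ H A, Ce H A → H ⊆ Sq q ∧ H.card ≤ bnd r t q h) ∧
      MeasurableSet {A : Oracle | (YesE M C b m u A ∧ ∀ H, ¬ Ce H A) ∨
        (NoE M C b m u A ∧ ∃ H, Ce H A)} ∧
      randomOracle.real {A : Oracle | (YesE M C b m u A ∧ ∀ H, ¬ Ce H A) ∨
        (NoE M C b m u A ∧ ∃ H, Ce H A)} ≤ (1 / 2) ^ h := by
  classical
  choose S hS1 hS2 hS3 using hS
  have hcirc : ∀ A A' : Oracle, (∀ z ∈ S A, A' z = A z) → circ M C A' u = circ M C A u := by
    intro A A' hA
    unfold circ
    rw [hS3 A A' hA]
  have hlen : ∀ (A : Oracle) q' k, Sum.inr (true, q', k) ∈ circ M C A u → q'.length ≤ q := by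
    intro A q' k hk
    unfold circ at hk
    cases ho : M.out A u with
    | none => rw [ho] at hk; simp at hk
    | some z => rw [ho] at hk; exact hq A z ho q' k hk
  have hnum : ∀ A : Oracle, numQ (circ M C A u) ≤ r := by
    intro A
    unfold circ
    cases M.out A u with
    | none => exact Nat.zero_le _
    | some z => exact hr z
  set R : ℝ := (r : ℝ) + 1 with hR
  have hr0 : (0 : ℝ) ≤ r := Nat.cast_nonneg r
  have hR1 : 1 ≤ R := by linarith
  have hR0 : 0 < R := by linarith
  have ht0 : (0 : ℝ) ≤ t := Nat.cast_nonneg t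
  have hq0 : (0 : ℝ) ≤ q := Nat.cast_nonneg q
  have hh0 : (0 : ℝ) ≤ h := Nat.cast_nonneg h
  set W : Oracle → List Bool → ℝ := fun A z =>
    if hy : YesE M C b m u A then wq A (circ M C A u) (load m hy.choose) z else 0 with hW
  have hW0 : ∀ A z, 0 ≤ W A z := by
    intro A z
    simp only [hW]
    split_ifs
    · exact wq_nonneg _ _ _ _
    · exact le_rfl
  have hWsum : ∀ (A : Oracle) (T : Finset (List Bool)), ∑ z ∈ T, W A z ≤ r := by
    intro A T
    simp only [hW]
    split_ifs with hy
    · have h1 := sum_wq_le A T (circ M C A u) (load m hy.choose)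
      rw [load_norm, hy.choose_spec.1, mul_one] at h1
      have h2 : ((numQ (circ M C A u) : ℕ) : ℝ) ≤ r := by exact_mod_cast hnum A
      linarith
    · simpa using hr0
  set Q : Oracle → List Bool → ℝ := fun A z => if z ∈ S A then 1 else W A z with hQ
  obtain ⟨J, hJ⟩ : ∃ J, J = Jr r := ⟨_, rfl⟩
  have hJ1 : 1 ≤ J := by
    rw [hJ]
    unfold Jr
    have : 0 < (r + 1) ^ 2 := by positivity
    omega
  have hJ' : (J : ℝ) = 288 * R ^ 2 := by
    rw [hJ, hR]
    unfold Jr
    push_cast
    ring
  set G : ℝ := 16 * R * (2 * (((t + r : ℕ) : ℝ) + R) * (q + 2) + 2 * (2 * J + h)) * (144 * R) ^ 2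
    with hG
  have hbase : 1 ≤ 2 * (((t + r : ℕ) : ℝ) + R) * (q + 2) + 2 * (2 * J + h) := by
    push_cast
    nlinarith [mul_nonneg (add_nonneg (add_nonneg ht0 hr0) hR0.le) hq0, Nat.cast_nonneg (α := ℝ) J]
  obtain ⟨Ce, h1, h2, h3, h4⟩ := orc (YesE M C b m u) (NoE M C b m u) q Q
    (fun A A' hA => by
      rintro ⟨ψ, h1, h2⟩
      refine ⟨ψ, h1, ?_⟩
      rw [hcirc A A' fun z hz => (hA z (mem_Sq.2 (hS2 A z hz))).symm,
        ← accS_local _ (hlen A) hA]
      exact h2)
    (fun A A' hA hN ψ h1 => by
      rw [hcirc A A' fun z hz => (hA z (mem_Sq.2 (hS2 A z hz))).symm,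
        ← accS_local _ (hlen A) hA]
      exact hN ψ h1)
    (fun A z => by
      simp only [hQ]
      split_ifs
      · norm_num
      · exact hW0 A z)
    R (1 / (144 * R)) (t + r) hR0
    (fun A _ => by
      refine le_trans (Finset.sum_le_sum (g := fun z => W A z) fun z _ => ?_)
        ((hWsum A _).trans (by linarith))
      simp only [hQ]
      split_ifs with hz
      · have e : ind ((1 : ℝ) < 1) = 0 := by
          unfold ind
          rw [if_neg (lt_irrefl _)]
        rw [e, mul_zero]
        exact hW0 A z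
      · exact mul_le_of_le_one_right (hW0 A z) (ind_le_one _))
    (fun A _ T _ hT2 => by
      have h5 : T ⊆ S A ∪ T.filter fun z => z ∉ S A := by
        intro z hz
        by_cases hzS : z ∈ S A
        · exact Finset.mem_union_left _ hzS
        · exact Finset.mem_union_right _ (Finset.mem_filter.2 ⟨hz, hzS⟩)
      have h6 : (T.filter fun z => z ∉ S A).card ≤ r := by
        have h7 : ((T.filter fun z => z ∉ S A).card : ℝ) ≤ r := by
          refine le_trans ?_ (hWsum A (T.filter fun z => z ∉ S A))
          calc ((T.filter fun z => z ∉ S A).card : ℝ)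
              = ∑ _z ∈ T.filter (fun z => z ∉ S A), (1 : ℝ) := by simp
            _ ≤ ∑ z ∈ T.filter (fun z => z ∉ S A), W A z := by
                refine Finset.sum_le_sum fun z hz => ?_
                rw [Finset.mem_filter] at hz
                have h8 := hT2 z hz.1
                simp only [hQ, if_neg hz.2] at h8
                exact h8
        exact_mod_cast h7
      have h9 := (Finset.card_le_card h5).trans (Finset.card_union_le _ _)
      have h10 := hS1 A
      omega)
    (by positivity)
    (fun A A' hY hN => by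
      have hpos : ∀ z, 0 ≤ Q A z * ind (A z ≠ A' z) := by
        intro z
        refine mul_nonneg ?_ (ind_nonneg _)
        simp only [hQ]
        split_ifs
        · norm_num
        · exact hW0 A z
      by_cases hag : ∀ z ∈ S A, A' z = A z
      · have hc := hcirc A A' hag
        obtain ⟨hu1, hu2⟩ := hY.choose_spec
        have hu3 := hN hY.choose hu1
        rw [hc] at hu3
        have hcov : Cov (b + m) A A' ((Sq q).filter fun z => A z ≠ A' z) (circ M C A u) := by
          intro q' k hk s hkm hne
          rw [Finset.mem_filter]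
          refine ⟨?_, hne⟩
          rw [mem_Sq]
          unfold qn
          rw [dif_pos hkm, List.length_map]
          exact hlen A q' k hk
        have h5 := weight_far A A' _ _ hcov (load m hY.choose) (by rw [load_norm, hu1]) hu2 hu3 R
          hR0 (by
            have : ((numQ (circ M C A u) : ℕ) : ℝ) ≤ r := by exact_mod_cast hnum A
            linarith)
        refine h5.trans ?_
        rw [Finset.sum_filter]
        refine Finset.sum_le_sum fun z _ => ?_
        by_cases hz : A z ≠ A' z
        · have e : ind (A z ≠ A' z) = 1 := by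
            unfold ind
            rw [if_pos hz]
          have hzS : z ∉ S A := fun hzS => hz (hag z hzS).symm
          rw [if_pos hz, e, mul_one]
          simp only [hQ, if_neg hzS, hW, dif_pos hY]
          exact le_rfl
        · rw [if_neg hz]
          exact hpos z
      · push Not at hag
        obtain ⟨z, hz, hne⟩ := hag
        have h5 : (1 : ℝ) ≤ ∑ z ∈ Sq q, Q A z * ind (A z ≠ A' z) := by
          have h6 := Finset.single_le_sum (f := fun z => Q A z * ind (A z ≠ A' z))
            (fun z _ => hpos z) (mem_Sq.2 (hS2 A z hz))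
          refine le_trans (le_of_eq ?_) h6
          have e : ind (A z ≠ A' z) = 1 := by
            unfold ind
            rw [if_pos hne.symm]
          simp only [hQ, if_pos hz, e, mul_one]
        refine le_trans ?_ h5
        rw [div_le_one (by positivity)]
        linarith)
    J hJ1
    (by
      rw [hJ']
      have e : 288 * R ^ 2 * (1 / (144 * R)) = 2 * R := by
        field_simp
        norm_num
      rw [e])
    ((1 / 2) ^ h) G (by positivity) (pow_le_one₀ (by norm_num) (by norm_num))
    (by
      have h5 : 1 ≤ 16 * R := by linarith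
      have h6 : 1 ≤ (144 * R) ^ 2 := one_le_pow₀ (by linarith)
      have h7 : 1 ≤ 16 * R * (2 * (((t + r : ℕ) : ℝ) + R) * (q + 2) + 2 * (2 * J + h)) :=
        one_le_mul_of_one_le_of_one_le h5 hbase
      exact one_le_mul_of_one_le_of_one_le h7 h6)
    (by
      have hJ0 : (0 : ℝ) < J := by rw [hJ']; positivity
      have h5 : Real.log (2 * J / (1 / 2) ^ h) ≤ 2 * J + h := by
        rw [Real.log_div (by positivity) (by positivity), Real.log_pow]
        have h6 : Real.log (2 * (J : ℝ)) ≤ 2 * J :=
          (Real.log_le_sub_one_of_pos (by positivity)).trans (by linarith)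
        have h7 : Real.log (1 / 2) = - Real.log 2 := by
          rw [one_div, Real.log_inv]
        have h8 : Real.log 2 ≤ 1 := by
          have := Real.log_two_lt_d9
          linarith
        rw [h7]
        nlinarith
      have h6 : (1 / (144 * R)) ^ 2 * G = 16 * R *
          (2 * (((t + r : ℕ) : ℝ) + R) * (q + 2) + 2 * (2 * J + h)) := by
        simp only [hG]
        field_simp
      rw [h6]
      gcongr)
  refine ⟨Ce, h1, ?_, h3, h4⟩
  intro H A hc
  obtain ⟨h5, h6⟩ := h2 H A hc
  refine ⟨h5, ?_⟩
  have h7 : ((bnd r t q h : ℕ) : ℝ) = ((t + r : ℕ) : ℝ) + R * G ^ J := by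
    have e : ((Gr r t q h : ℕ) : ℝ) = G := by
      unfold Gr
      rw [hG, hJ', hR]
      push_cast
      ring
    unfold bnd
    rw [← hJ, Nat.cast_add, Nat.cast_mul, Nat.cast_pow, e]
    push_cast
    rw [hR]
  have h8 : (H.card : ℝ) ≤ ((bnd r t q h : ℕ) : ℝ) := by
    rw [h7]
    exact h6
  exact_mod_cast h8

end Pool.Agent.W938.QM
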