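import Pool.Agent.W938.QM.NPv

/-!
# Few questions: quantum witnesses relative to a random oracle
-/

set_option autoImplicit false
set_option linter.unusedSectionVars false

namespace Pool.Agent.W938.QM

open Pool.Agent.NPC Pool.Agent.H620R2.Gauge Pool.Agent.W938.Hyb
open Pool.Agent.H628R3.RO (randomOracle)

/-- The verifiers. -/
def Ver : Type := {g : Alg × (List Bool → List Gate) × Polynomial ℕ × ℕ //
  PolyTime (fun z => bits (g.2.1 z)) ∧ ∀ z, numQ (g.2.1 z) ≤ g.2.2.2}

instance : Countable Ver := by
  have h1 : Countable {D : List Bool → List Bool | PolyTime D} := countable_polyTime.to_subtype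
  have h2 : Countable (Polynomial ℕ) := by
    have : Function.Injective (fun p : Polynomial ℕ => (p.toFinsupp.coeff : ℕ →₀ ℕ)) := by
      intro p q h
      ext n
      exact DFunLike.congr_fun h n
    exact this.countable
  let F : Ver → Alg × {D : List Bool → List Bool | PolyTime D} × Polynomial ℕ × ℕ := fun g =>
    (g.1.1, ⟨fun z => bits (g.1.2.1 z), g.2.1⟩, g.1.2.2.1, g.1.2.2.2)
  have hF : Function.Injective F := by
    rintro ⟨⟨M, C, p, r⟩, h⟩ ⟨⟨M', C', p', r'⟩, h'⟩ heq
    simp only [F, Prod.mk.injEq, Subtype.mk.injEq] at heq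
    obtain ⟨rfl, h3, rfl, rfl⟩ := heq
    have h4 : C = C' := by
      funext z
      exact bits_injective (congrFun h3 z)
    subst h4
    rfl
  exact hF.countable

theorem main : ∃ B : Oracle, ∀ᵐ A ∂randomOracle, ∀ (r : ℕ) (L : Set (List Bool)),
    IsQMA r A L → IsNP (join A B) L := by
  classical
  have hfam : ∀ g : Ver, _ := fun g => fam g.1.1 g.1.2.1 g.1.2.2.1 g.1.2.2.2 g.2.1 g.2.2
  choose P hP using hfam
  choose T Bad hT1 hT2 hT3 hT4 using hP
  obtain ⟨ι, hι⟩ := Countable.exists_injective_nat (Ver × Finset (List Bool) × Finset (List Bool))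
  set κ : Ver × Finset (List Bool) × Finset (List Bool) → List Bool := fun g =>
    List.replicate (ι g) true with hκ
  have hκi : Function.Injective κ := by
    intro g g' h
    apply hι
    have := congrArg List.length h
    simpa [hκ] using this
  set T' : Ver × Finset (List Bool) × Finset (List Bool) → List Bool →
      Set (Finset (List Bool × Bool)) := fun g x =>
    if x ∈ g.2.1 then (if x ∈ g.2.2 then {∅} else ∅) else T g.1 x with hT'
  set B : Oracle := fun u => decide (∃ (g : Ver × Finset (List Bool) × Finset (List Bool))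
    (w x : List Bool), u = pairBits (κ g) (pairBits w x) ∧
      ∃ c, unbits (List (List Bool × Bool)) w = some c ∧ c.toFinset ∈ T' g x) with hB
  have hBs : ∀ g x w, B (pairBits (κ g) (pairBits w x)) = true ↔
      ∃ c, unbits (List (List Bool × Bool)) w = some c ∧ c.toFinset ∈ T' g x := by
    intro g x w
    simp only [hB, decide_eq_true_eq]
    constructor
    · rintro ⟨g', w', x', h1, h2⟩
      have h3 := congrArg unpair h1
      rw [unpair_pairBits, unpair_pairBits, Prod.mk.injEq] at h3
      have h4 := congrArg unpair h3.2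
      rw [unpair_pairBits, unpair_pairBits, Prod.mk.injEq] at h4
      obtain ⟨rfl, rfl⟩ := h4
      have h5 := hκi h3.1
      subst h5
      exact h2
    · intro h
      exact ⟨g, w, x, rfl, h⟩
  refine ⟨B, ?_⟩
  have hae : ∀ᵐ A ∂randomOracle, ∀ g : Ver, {x | A ∈ Bad g x}.Finite := by
    rw [MeasureTheory.ae_all_iff]
    intro g
    exact bc (Bad g) (hT3 g)
  filter_upwards [hae] with A hA r L hL
  obtain ⟨F, C, p, ⟨M, hM⟩, hC, hnum, hx⟩ := hL
  set g : Ver := ⟨(M, C, p, r), hC, hnum⟩ with hg
  set E : Finset (List Bool) := (hA g).toFinset with hE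
  refine np_of A B (κ (g, E, E.filter fun x => x ∈ L)) (T' (g, E, E.filter fun x => x ∈ L)) (P g)
    ?_ (hBs _) L ?_
  · intro x c hc
    simp only [hT'] at hc
    split_ifs at hc with h1 h2
    · rw [Set.mem_singleton_iff] at hc
      subst hc
      simp
    · exact absurd hc (Set.notMem_empty _)
    · exact hT1 g x c hc
  · intro x
    simp only [hT']
    by_cases hxE : x ∈ E
    · rw [if_pos hxE]
      by_cases hxL : x ∈ L
      · rw [if_pos (Finset.mem_filter.2 ⟨hxE, hxL⟩)]
        refine ⟨fun _ => ⟨∅, rfl, fun e he => absurd he (Finset.notMem_empty _)⟩, fun _ => hxL⟩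
      · rw [if_neg (fun h => hxL (Finset.mem_filter.1 h).2)]
        exact ⟨fun h => absurd h hxL, fun ⟨c, hc, _⟩ => absurd hc (Set.notMem_empty _)⟩
    · rw [if_neg hxE]
      have hbad : A ∉ Bad g x := by
        intro h
        exact hxE ((hA g).mem_toFinset.2 h)
      obtain ⟨h1, h2⟩ := hT4 g x A hbad
      have hc : ∀ w, circ M C A (pairBits w x) = C (F (pairBits w x)) := by
        intro w
        unfold circ
        rw [hM]
      by_cases hxL : x ∈ L
      · refine ⟨fun _ => h1 ?_, fun _ => hxL⟩
        obtain ⟨w, ψ, hw, hψ, hacc⟩ := (hx x).1 hxL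
        obtain ⟨u, hu, hu2⟩ := real_yes A _ _ ψ hψ hacc
        refine ⟨w, hw, u, hu, ?_⟩
        show 2 / 3 ≤ accS A (circ M C A (pairBits w x)) _
        rw [hc]
        exact hu2
      · refine ⟨fun h => absurd h hxL, fun h => absurd h (h2 ?_)⟩
        intro w hw u hu
        show accS A (circ M C A (pairBits w x)) _ ≤ 1 / 3
        rw [hc]
        exact real_no A _ _ (fun ψ hψ => (hx x).2 hxL w ψ hw hψ) u hu

end Pool.Agent.W938.QM
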