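import Pool.Agent.W938.QM.Fam
import Pool.Agent.H620R2.Gauge.A2
import Pool.Agent.H622R2.CoNP

/-!
# The verifier for the certificates
-/

set_option autoImplicit false
set_option linter.unusedSectionVars false

namespace Pool.Agent.W938.QM

open Pool.Agent.NPC Pool.Agent.H620R2.Gauge Pool.Agent.W938.Hyb

/-- The list of strings and bits which is coded in the first component. -/
def cert (z : List Bool) : List (List Bool × Bool) :=
  match unbits (List (List Bool × Bool)) (unpair z).1 with
  | none => []
  | some c => c

lemma poly_cert : NPC.Poly cert := by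
  have h := NPC.Poly.optCases (o := fun z : List Bool => unbits (List (List Bool × Bool))
    (unpair z).1) (g := fun _ => ([] : List (List Bool × Bool))) (h := fun _ c => c)
    (poly_unbits.comp (Poly.fst poly_unpair)) (NPC.Poly.const _) (Poly.snd Poly.id)
  refine h.congr fun z => ?_
  unfold cert
  cases unbits (List (List Bool × Bool)) (unpair z).1 <;> rfl

lemma map_iff (A : Oracle) (l : List (List Bool × Bool)) :
    l.map (fun e => A e.1) = l.map Prod.snd ↔ ∀ e ∈ l, A e.1 = e.2 :=
  List.map_inj_left

theorem np_of (A B : Oracle) (κ : List Bool) (T : List Bool → Set (Finset (List Bool × Bool)))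
    (P : Polynomial ℕ)
    (hT : ∀ x, ∀ c ∈ T x, c.card ≤ P.eval x.length ∧ ∀ e ∈ c, e.1.length ≤ P.eval x.length)
    (hB : ∀ x w, B (pairBits κ (pairBits w x)) = true ↔
      ∃ c, unbits (List (List Bool × Bool)) w = some c ∧ c.toFinset ∈ T x)
    (L : Set (List Bool)) (hL : ∀ x, x ∈ L ↔ ∃ c ∈ T x, Agree A c) : IsNP (join A B) L := by
  classical
  set Q : List Bool → List (List Bool) := fun z =>
    (true :: pairBits κ z) :: (cert z).map (fun e => false :: e.1) with hQ
  set H : List Bool × List Bool → List Bool := fun y =>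
    [decide (y.2 = true :: (cert y.1).map Prod.snd)] with hH
  have pQ : Poly Q :=
    Poly.cons (Poly.cons (NPC.Poly.const true) (Pool.Agent.H622R2.poly_pairBits (NPC.Poly.const κ) Poly.id))
      (NPC.Poly.map (F := fun (_ : List Bool) (e : List Bool × Bool) => false :: e.1) poly_cert
        (Poly.cons (NPC.Poly.const false) (Poly.fst (Poly.snd Poly.id))))
  have pH : Poly H :=
    Poly.cons (Poly.decide_eq (Poly.snd Poly.id) (Poly.cons (NPC.Poly.const true)
      (NPC.Poly.map (F := fun (_ : List Bool × List Bool) (e : List Bool × Bool) => e.2)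
        (poly_cert.comp (Poly.fst Poly.id)) (Poly.snd (Poly.snd Poly.id))))) (NPC.Poly.const [])
  refine ⟨fun z => H (z, (Q z).map (join A B)), P * (4 * P + 6) + 1, IsFP.tt pQ pH, fun x => ?_⟩
  have hV : ∀ w, H (pairBits w x, (Q (pairBits w x)).map (join A B)) = [true] ↔
      B (pairBits κ (pairBits w x)) = true ∧ ∀ e ∈ cert (pairBits w x), A e.1 = e.2 := by
    intro w
    have e1 : (Q (pairBits w x)).map (join A B) = B (pairBits κ (pairBits w x)) ::
        (cert (pairBits w x)).map (fun e => A e.1) := by
      simp only [hQ, List.map_cons, List.map_map]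
      rfl
    simp only [hH, e1, List.cons.injEq, and_true, decide_eq_true_eq, map_iff]
  have hcert : ∀ w c, unbits (List (List Bool × Bool)) w = some c → cert (pairBits w x) = c := by
    intro w c hc
    unfold cert
    rw [unpair_pairBits, hc]
  rw [hL]
  constructor
  · rintro ⟨c, hc, hag⟩
    obtain ⟨h1, h2⟩ := hT x c hc
    refine ⟨bits c.toList, ?_, ?_⟩
    · rw [bits_length]
      have h3 : sz c.toList ≤ c.toList.length * (4 * P.eval x.length + 5 + 1) + 1 := by
        refine sz_le_length_mul _ _ fun e he => ?_
        have h4 := h2 e (Finset.mem_toList.1 he)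
        have h5 := sz_listBool_le e.1
        have h6 := sz_bool_le e.2
        have h7 : sz e = sz e.1 + sz e.2 + 1 := sz_pair e.1 e.2
        omega
      rw [Finset.length_toList] at h3
      refine h3.trans ?_
      simp only [Polynomial.eval_add, Polynomial.eval_mul, Polynomial.eval_one,
        Polynomial.eval_ofNat]
      have h8 := Nat.mul_le_mul_right (4 * P.eval x.length + 5 + 1) h1
      exact Nat.add_le_add_right h8 1
    · rw [hV]
      have h9 := unbits_bits c.toList
      refine ⟨(hB x _).2 ⟨_, h9, ?_⟩, ?_⟩
      · rw [Finset.toList_toFinset]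
        exact hc
      · rw [hcert _ _ h9]
        intro e he
        exact hag e (Finset.mem_toList.1 he)
  · rintro ⟨w, -, hw⟩
    rw [hV] at hw
    obtain ⟨h1, h2⟩ := hw
    obtain ⟨c, h3, h4⟩ := (hB x w).1 h1
    rw [hcert _ _ h3] at h2
    exact ⟨c.toFinset, h4, fun e he => h2 e (List.mem_toFinset.1 he)⟩

end Pool.Agent.W938.QM
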