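import Pool.Agent.W938.CQ.Tal

/-!
# Certificates of typical points from the inequality of Talagrand

If every yes point is far from all no points, in the sense of a weight of the coordinates (with
bounded total) which depends on the yes point, then yes and no points can be separated by small
certificates, up to an exceptional set of small probability.
-/

set_option autoImplicit false
set_option linter.unusedSectionVars false

namespace Pool.Agent.W938.QM

open Finset Pool.Agent.H722R2.AA Pool.Agent.H746R2.AA Pool.Agent.H703R2.AA Pool.Agent.H703R2.AA.Pr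
open Pool.Agent.W938.CQ

variable {n : ℕ}

/-- The point which is `a` on `H` and `y` elsewhere. -/
def spl (H : Finset (Fin n)) (a y : Fin n → ℤˣ) : Fin n → ℤˣ := fun i => if i ∈ H then a i else y i

lemma spl_spl (H : Finset (Fin n)) (a y z : Fin n → ℤˣ) : spl H (spl H a y) z = spl H a z := by
  funext i
  unfold spl
  by_cases h : i ∈ H
  · simp [h]
  · simp [h]

lemma spl_invol (H : Finset (Fin n)) (a y : Fin n → ℤˣ) :
    spl H (spl H a y) (spl H y a) = a := by
  funext i
  unfold spl
  by_cases h : i ∈ H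
  · simp [h]
  · simp [h]

lemma spl_avg (H : Finset (Fin n)) (F : (Fin n → ℤˣ) → ℝ) :
    Ex (fun a => Ex (fun y => F (spl H a y))) = Ex F := by
  have h1 : ∑ p : (Fin n → ℤˣ) × (Fin n → ℤˣ), F (spl H p.1 p.2)
      = ∑ p : (Fin n → ℤˣ) × (Fin n → ℤˣ), F p.1 := by
    let t : (Fin n → ℤˣ) × (Fin n → ℤˣ) → (Fin n → ℤˣ) × (Fin n → ℤˣ) :=
      fun p => (spl H p.1 p.2, spl H p.2 p.1)
    have ht : Function.Involutive t := by
      intro p
      simp only [t, spl_invol]
    exact Equiv.sum_comp ht.toPerm (fun p : (Fin n → ℤˣ) × (Fin n → ℤˣ) => F p.1)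
  rw [Fintype.sum_prod_type, Fintype.sum_prod_type] at h1
  unfold Ex
  rw [← Finset.sum_div, h1]
  have h2 : ∀ x : Fin n → ℤˣ, ∑ _y : Fin n → ℤˣ, F x = (2 : ℝ) ^ Fintype.card (Fin n) * F x := by
    intro x
    rw [Finset.sum_const, nsmul_eq_mul, card_cube]
  simp only at h1 ⊢
  rw [Finset.sum_congr rfl fun x _ => h2 x, ← Finset.mul_sum]
  field_simp

/-- The number of small sets. -/
lemma card_small (k : ℕ) :
    (((Finset.univ : Finset (Finset (Fin n))).filter fun H => H.card ≤ k).card : ℝ)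
      ≤ ((n : ℝ) + 1) ^ k := by
  classical
  let f : (Fin k → Option (Fin n)) → Finset (Fin n) := fun g =>
    Finset.univ.filter fun i => ∃ j, g j = some i
  have h1 : ((Finset.univ : Finset (Finset (Fin n))).filter fun H => H.card ≤ k) ⊆
      (Finset.univ : Finset (Fin k → Option (Fin n))).image f := by
    intro H hH
    rw [Finset.mem_filter] at hH
    rw [Finset.mem_image]
    refine ⟨fun j => if h : j.1 < H.card then some (H.equivFin.symm ⟨j.1, h⟩).1 else none,
      Finset.mem_univ _, ?_⟩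
    ext i
    simp only [f, Finset.mem_filter, Finset.mem_univ, true_and]
    constructor
    · rintro ⟨j, hj⟩
      split_ifs at hj with h
      · rw [Option.some_inj] at hj
        rw [← hj]
        exact (H.equivFin.symm ⟨j.1, h⟩).2
    · intro hi
      refine ⟨⟨(H.equivFin ⟨i, hi⟩).1, (H.equivFin ⟨i, hi⟩).2.trans_le hH.2⟩, ?_⟩
      rw [dif_pos (H.equivFin ⟨i, hi⟩).2]
      simp
  have h2 := (Finset.card_le_card h1).trans Finset.card_image_le
  rw [Finset.card_univ, Fintype.card_fun, Fintype.card_option, Fintype.card_fin,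
    Fintype.card_fin] at h2
  exact_mod_cast h2

/-- The certificates: sets `H` of at most `k j` coordinates such that, given the values of `a` on
`H`, a random point is a no point with probability less than `p j`. -/
def Cert (No : (Fin n → ℤˣ) → Prop) (J : ℕ) (k : ℕ → ℕ) (p : ℕ → ℝ) (H : Finset (Fin n))
    (a : Fin n → ℤˣ) : Prop :=
  ∃ j < J, H.card ≤ k j ∧ Pb (fun y => No (spl H a y)) < p j

lemma Cert_congr {No : (Fin n → ℤˣ) → Prop} {J : ℕ} {k : ℕ → ℕ} {p : ℕ → ℝ} {H : Finset (Fin n)}
    {a b : Fin n → ℤˣ} (h : ∀ i ∈ H, a i = b i) (hc : Cert No J k p H a) : Cert No J k p H b := by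
  obtain ⟨j, h1, h2, h3⟩ := hc
  refine ⟨j, h1, h2, ?_⟩
  have e : ∀ y, spl H a y = spl H b y := by
    intro y
    funext i
    unfold spl
    by_cases hi : i ∈ H
    · simp only [hi, if_true]
      exact h i hi
    · simp [hi]
  simpa only [e] using h3

/-- Soundness. -/
lemma sound (No : (Fin n → ℤˣ) → Prop) (J : ℕ) (k : ℕ → ℕ) (p : ℕ → ℝ) (hp : ∀ j, 0 ≤ p j) :
    Pb (fun x => No x ∧ ∃ H, Cert No J k p H x)
      ≤ ∑ j ∈ Finset.range J, ((n : ℝ) + 1) ^ k j * p j := by
  classical
  have h1 : ∀ j (H : Finset (Fin n)),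
      Pb (fun x => No x ∧ Pb (fun y => No (spl H x y)) < p j) ≤ p j := by
    intro j H
    unfold Pb
    rw [← spl_avg H]
    refine Ex_le_const fun a => ?_
    simp only [spl_spl]
    by_cases hc : Ex (fun y => ind (No (spl H a y))) < p j
    · refine le_trans (Ex_mono fun y => ind_mono fun h => h.1) hc.le
    · have : ∀ y, ind (No (spl H a y) ∧ Ex (fun y => ind (No (spl H a y))) < p j) = 0 := by
        intro y
        unfold ind
        rw [if_neg (fun h => hc h.2)]
      rw [Ex_congr this, Ex_const]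
      exact hp j
  have h2 : Pb (fun x => No x ∧ ∃ H, Cert No J k p H x) ≤
      ∑ j ∈ Finset.range J, ∑ H ∈ (Finset.univ : Finset (Finset (Fin n))).filter
        (fun H => H.card ≤ k j), Pb (fun x => No x ∧ Pb (fun y => No (spl H x y)) < p j) := by
    unfold Pb
    simp_rw [← Ex_sum]
    refine Ex_mono fun x => ?_
    by_cases h : No x ∧ ∃ H, Cert No J k p H x
    · obtain ⟨hx, H, j, hj, hH, hlt⟩ := h
      have e1 : ind (No x ∧ ∃ H, Cert No J k p H x) = 1 := by
        unfold ind
        rw [if_pos ⟨hx, H, j, hj, hH, hlt⟩]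
      rw [e1]
      have e2 : ind (No x ∧ Ex (fun y => ind (No (spl H x y))) < p j) = 1 := by
        unfold ind
        rw [if_pos ⟨hx, hlt⟩]
      calc (1 : ℝ) = ind (No x ∧ Ex (fun y => ind (No (spl H x y))) < p j) := e2.symm
        _ ≤ ∑ H ∈ (Finset.univ : Finset (Finset (Fin n))).filter (fun H => H.card ≤ k j),
            ind (No x ∧ Ex (fun y => ind (No (spl H x y))) < p j) :=
          Finset.single_le_sum (f := fun H => ind (No x ∧ Ex (fun y => ind (No (spl H x y))) < p j))
            (fun _ _ => ind_nonneg _) (Finset.mem_filter.2 ⟨Finset.mem_univ _, hH⟩)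
        _ ≤ _ := Finset.single_le_sum (f := fun j => ∑ H ∈ (Finset.univ :
            Finset (Finset (Fin n))).filter (fun H => H.card ≤ k j),
            ind (No x ∧ Ex (fun y => ind (No (spl H x y))) < p j))
            (fun _ _ => Finset.sum_nonneg fun _ _ => ind_nonneg _) (Finset.mem_range.2 hj)
    · have e1 : ind (No x ∧ ∃ H, Cert No J k p H x) = 0 := by
        unfold ind
        rw [if_neg h]
      rw [e1]
      exact Finset.sum_nonneg fun _ _ => Finset.sum_nonneg fun _ _ => ind_nonneg _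
  refine h2.trans (Finset.sum_le_sum fun j _ => ?_)
  calc ∑ H ∈ (Finset.univ : Finset (Finset (Fin n))).filter (fun H => H.card ≤ k j),
        Pb (fun x => No x ∧ Pb (fun y => No (spl H x y)) < p j)
      ≤ ∑ _H ∈ (Finset.univ : Finset (Finset (Fin n))).filter (fun H => H.card ≤ k j), p j :=
        Finset.sum_le_sum fun H _ => h1 j H
    _ = (((Finset.univ : Finset (Finset (Fin n))).filter fun H => H.card ≤ k j).card : ℝ) * p j := by
        rw [Finset.sum_const, nsmul_eq_mul]
    _ ≤ _ := mul_le_mul_of_nonneg_right (card_small _) (hp j)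

/-- The coordinates of weight at least `δ`. -/
noncomputable def heavy (q : Fin n → ℝ) (δ : ℝ) : Finset (Fin n) :=
  Finset.univ.filter fun i => δ ≤ q i

lemma mem_heavy {q : Fin n → ℝ} {δ : ℝ} {i : Fin n} : i ∈ heavy q δ ↔ δ ≤ q i := by
  simp [heavy]

lemma card_heavy (q : Fin n → ℝ) (hq : ∀ i, 0 ≤ q i) (r δ : ℝ) (t : ℕ)
    (hr : ∑ i, q i * ind (q i < 1) ≤ r) (ht : (heavy q 1).card ≤ t) (hδ : 0 < δ) :
    ((heavy q δ).card : ℝ) ≤ t + r / δ := by
  classical
  have h1 : heavy q δ ⊆ heavy q 1 ∪ (heavy q δ).filter fun i => q i < 1 := by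
    intro i hi
    by_cases h : q i < 1
    · exact Finset.mem_union_right _ (Finset.mem_filter.2 ⟨hi, h⟩)
    · exact Finset.mem_union_left _ (mem_heavy.2 (not_lt.1 h))
  have h2 : (((heavy q δ).filter fun i => q i < 1).card : ℝ) ≤ r / δ := by
    rw [le_div_iff₀ hδ]
    calc (((heavy q δ).filter fun i => q i < 1).card : ℝ) * δ
        = ∑ _i ∈ (heavy q δ).filter fun i => q i < 1, δ := by
          rw [Finset.sum_const, nsmul_eq_mul]
      _ ≤ ∑ i ∈ (heavy q δ).filter fun i => q i < 1, q i * ind (q i < 1) := by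
          refine Finset.sum_le_sum fun i hi => ?_
          rw [Finset.mem_filter] at hi
          have e : ind (q i < 1) = 1 := by
            unfold ind
            rw [if_pos hi.2]
          rw [e, mul_one]
          exact mem_heavy.1 hi.1
      _ ≤ ∑ i, q i * ind (q i < 1) :=
          Finset.sum_le_sum_of_subset_of_nonneg (Finset.subset_univ _)
            fun i _ _ => mul_nonneg (hq i) (ind_nonneg _)
      _ ≤ r := hr
  have h3 := (Finset.card_le_card h1).trans (Finset.card_union_le _ _)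
  have h4 : ((heavy q δ).card : ℝ) ≤ ((heavy q 1).card : ℝ) +
      (((heavy q δ).filter fun i => q i < 1).card : ℝ) := by exact_mod_cast h3
  have h5 : ((heavy q 1).card : ℝ) ≤ t := by exact_mod_cast ht
  linarith

/-- The total weight of the coordinates with weight in `[δ', δ)`. -/
noncomputable def mid (q : Fin n → ℝ) (δ' δ : ℝ) : ℝ := ∑ i, q i * ind (δ' ≤ q i ∧ q i < δ)

/-- Some scale carries little weight. -/
lemma scale (q : Fin n → ℝ) (hq : ∀ i, 0 ≤ q i) (r θ : ℝ) (hr : ∑ i, q i * ind (q i < 1) ≤ r)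
    (J : ℕ) (hJ : 1 ≤ J) (hJ2 : 2 * r ≤ J * θ) (δ : ℕ → ℝ) (hδ : ∀ j, δ (j + 1) ≤ δ j)
    (hδ1 : ∀ j, δ j ≤ 1) :
    ∃ j < J, mid q (δ (j + 1)) (δ j) ≤ θ / 2 := by
  by_contra hc
  push Not at hc
  have h1 : ∑ j ∈ Finset.range J, mid q (δ (j + 1)) (δ j) ≤ r := by
    refine le_trans ?_ hr
    unfold mid
    rw [Finset.sum_comm]
    refine Finset.sum_le_sum fun i _ => ?_
    rw [← Finset.mul_sum]
    have h2 : ∑ j ∈ Finset.range J, ind (δ (j + 1) ≤ q i ∧ q i < δ j) ≤ ind (q i < 1) := by
      by_cases hlt : q i < 1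
      · have e1 : ind (q i < 1) = 1 := by
          unfold ind
          rw [if_pos hlt]
        rw [e1]
        have h3 : ∀ j, ind (δ (j + 1) ≤ q i ∧ q i < δ j)
            = ind (δ (j + 1) ≤ q i) - ind (δ j ≤ q i) := by
          intro j
          unfold ind
          have := hδ j
          by_cases ha : δ (j + 1) ≤ q i
          · by_cases hb : q i < δ j
            · rw [if_pos ⟨ha, hb⟩, if_pos ha, if_neg (not_le.2 hb)]
              norm_num
            · rw [if_neg (fun h => hb h.2), if_pos ha, if_pos (not_lt.1 hb)]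
              norm_num
          · rw [if_neg (fun h => ha h.1), if_neg ha, if_neg (fun h => ha (this.trans h))]
            norm_num
        rw [Finset.sum_congr rfl fun j _ => h3 j, Finset.sum_range_sub (fun j => ind (δ j ≤ q i)) J]
        have h4 := ind_le_one (δ J ≤ q i)
        have h5 := ind_nonneg (δ 0 ≤ q i)
        linarith
      · have e2 : ∀ j ∈ Finset.range J, ind (δ (j + 1) ≤ q i ∧ q i < δ j) = 0 := by
          intro j _
          unfold ind
          rw [if_neg (fun h => hlt (h.2.trans_le (hδ1 j)))]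
        rw [Finset.sum_eq_zero e2]
        exact ind_nonneg _
    exact mul_le_mul_of_nonneg_left h2 (hq i)
  have h2 : ∑ _j ∈ Finset.range J, θ / 2 < ∑ j ∈ Finset.range J, mid q (δ (j + 1)) (δ j) := by
    refine Finset.sum_lt_sum_of_nonempty ?_ fun j hj => hc j (Finset.mem_range.1 hj)
    rw [Finset.nonempty_range_iff]
    omega
  rw [Finset.sum_const, nsmul_eq_mul, Finset.card_range] at h2
  linarith

/-- The use of the inequality of Talagrand. -/
lemma step (Yes No : (Fin n → ℤˣ) → Prop) (Q : (Fin n → ℤˣ) → Fin n → ℝ)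
    (hQ : ∀ x i, 0 ≤ Q x i) (r θ : ℝ) (hr0 : 0 < r)
    (hr : ∀ x, Yes x → ∑ i, Q x i * ind (Q x i < 1) ≤ r)
    (hθ : 0 < θ) (hfar : ∀ x y, Yes x → No y → θ ≤ ∑ i, Q x i * ind (x i ≠ y i))
    (δ' δ : ℝ) (hδ' : 0 < δ') (hδ1 : δ' ≤ 1) (H : Finset (Fin n)) (a : Fin n → ℤˣ) :
    Pb (fun y => No (spl H a y)) * Pb (fun y => Yes (spl H a y) ∧ H = heavy (Q (spl H a y)) δ ∧
      mid (Q (spl H a y)) δ' δ ≤ θ / 2) ≤ Real.exp (-(θ ^ 2 / (16 * (r * δ')))) := by
  have key := tal_use (fun y => No (spl H a y)) (fun y => Yes (spl H a y) ∧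
      H = heavy (Q (spl H a y)) δ ∧ mid (Q (spl H a y)) δ' δ ≤ θ / 2)
    (fun y i => if i ∈ H then 0 else if Q (spl H a y) i < δ' then Q (spl H a y) i else 0)
    (r * δ') (θ / 2) (by positivity) (by positivity) ?_ ?_
  · refine key.trans (le_of_eq ?_)
    congr 2
    field_simp
    ring
  · rintro y ⟨h1, -, -⟩
    calc ∑ i, (if i ∈ H then 0 else if Q (spl H a y) i < δ' then Q (spl H a y) i else 0) ^ 2
        ≤ ∑ i, Q (spl H a y) i * ind (Q (spl H a y) i < 1) * δ' := by
          refine Finset.sum_le_sum fun i _ => ?_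
          have h0 := hQ (spl H a y) i
          have hi0 := ind_nonneg (Q (spl H a y) i < 1)
          split_ifs with h2 h3
          · simp only [ne_eq, OfNat.ofNat_ne_zero, not_false_eq_true, zero_pow]
            positivity
          · rw [sq]
            have e : ind (Q (spl H a y) i < 1) = 1 := by
              unfold ind
              rw [if_pos (h3.trans_le hδ1)]
            rw [e, mul_one]
            exact mul_le_mul_of_nonneg_left h3.le h0
          · simp only [ne_eq, OfNat.ofNat_ne_zero, not_false_eq_true, zero_pow]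
            positivity
      _ = (∑ i, Q (spl H a y) i * ind (Q (spl H a y) i < 1)) * δ' := by rw [Finset.sum_mul]
      _ ≤ r * δ' := mul_le_mul_of_nonneg_right (hr _ h1) hδ'.le
  · rintro y z ⟨h1, h2, h3⟩ h4
    have h5 := hfar _ _ h1 h4
    have h6 : ∑ i, Q (spl H a y) i * ind (spl H a y i ≠ spl H a z i) ≤
        ∑ i, ((if i ∈ H then 0 else if Q (spl H a y) i < δ' then Q (spl H a y) i else 0)
          * ind (y i ≠ z i) + Q (spl H a y) i * ind (δ' ≤ Q (spl H a y) i ∧ Q (spl H a y) i < δ)) := by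
      refine Finset.sum_le_sum fun i _ => ?_
      have h0 := hQ (spl H a y) i
      have hn := mul_nonneg h0 (ind_nonneg (δ' ≤ Q (spl H a y) i ∧ Q (spl H a y) i < δ))
      by_cases hi : i ∈ H
      · have e : spl H a y i = spl H a z i := by unfold spl; simp [hi]
        have e2 : ind (spl H a y i ≠ spl H a z i) = 0 := by
          unfold ind
          rw [if_neg (fun h => h e)]
        rw [e2, mul_zero, if_pos hi, zero_mul, zero_add]
        exact hn
      · have e : ind (spl H a y i ≠ spl H a z i) = ind (y i ≠ z i) := by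
          unfold spl
          simp [hi]
        rw [e, if_neg hi]
        by_cases hb : Q (spl H a y) i < δ'
        · rw [if_pos hb]
          linarith
        · rw [if_neg hb, zero_mul, zero_add]
          have h7 : Q (spl H a y) i < δ := by
            by_contra hcon
            exact hi (h2 ▸ mem_heavy.2 (not_lt.1 hcon))
          have e3 : ind (δ' ≤ Q (spl H a y) i ∧ Q (spl H a y) i < δ) = 1 := by
            unfold ind
            rw [if_pos ⟨not_lt.1 hb, h7⟩]
          rw [e3]
          exact mul_le_mul_of_nonneg_left (ind_le_one _) h0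
    rw [Finset.sum_add_distrib] at h6
    have h8 : mid (Q (spl H a y)) δ' δ ≤ θ / 2 := h3
    unfold mid at h8
    linarith

/-- Completeness. -/
lemma complete (Yes No : (Fin n → ℤˣ) → Prop) (Q : (Fin n → ℤˣ) → Fin n → ℝ)
    (hQ : ∀ x i, 0 ≤ Q x i) (r θ : ℝ) (t : ℕ) (hr0 : 0 < r)
    (hr : ∀ x, Yes x → ∑ i, Q x i * ind (Q x i < 1) ≤ r)
    (ht : ∀ x, Yes x → (heavy (Q x) 1).card ≤ t)
    (hθ : 0 < θ) (hfar : ∀ x y, Yes x → No y → θ ≤ ∑ i, Q x i * ind (x i ≠ y i))
    (J : ℕ) (hJ : 1 ≤ J) (hJ2 : 2 * r ≤ J * θ) (δ : ℕ → ℝ) (hδ : ∀ j, δ (j + 1) ≤ δ j)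
    (hδ0 : ∀ j, 0 < δ j) (hδ1 : ∀ j, δ j ≤ 1) (k : ℕ → ℕ) (hk : ∀ j, t + r / δ j < k j + 1)
    (p : ℕ → ℝ)
    (hp : ∀ j, 0 < p j) :
    Pb (fun x => Yes x ∧ ∀ H, ¬ Cert No J k p H x)
      ≤ ∑ j ∈ Finset.range J, ((n : ℝ) + 1) ^ k j *
        (Real.exp (-(θ ^ 2 / (16 * (r * δ (j + 1))))) / p j) := by
  classical
  set St : ℕ → Finset (Fin n) → (Fin n → ℤˣ) → Prop := fun j H x =>
    Yes x ∧ H = heavy (Q x) (δ j) ∧ mid (Q x) (δ (j + 1)) (δ j) ≤ θ / 2 with hSt
  have h1 : ∀ j (H : Finset (Fin n)),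
      Pb (fun x => St j H x ∧ p j ≤ Pb (fun y => No (spl H x y))) ≤
        Real.exp (-(θ ^ 2 / (16 * (r * δ (j + 1))))) / p j := by
    intro j H
    have hE := Real.exp_pos (-(θ ^ 2 / (16 * (r * δ (j + 1)))))
    unfold Pb
    rw [← spl_avg H]
    refine Ex_le_const fun a => ?_
    simp only [spl_spl]
    by_cases hc : p j ≤ Ex (fun y => ind (No (spl H a y)))
    · rw [le_div_iff₀ (hp j)]
      have h2 := step Yes No Q hQ r θ hr0 hr hθ hfar (δ (j + 1)) (δ j) (hδ0 _) (hδ1 _) H a
      refine le_trans ?_ h2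
      rw [mul_comm]
      unfold Pb
      refine mul_le_mul hc (Ex_mono fun y => ind_mono fun h => h.1) (Ex_nonneg fun _ => ind_nonneg _)
        (Ex_nonneg fun _ => ind_nonneg _)
    · have : ∀ y, ind (St j H (spl H a y) ∧ p j ≤ Ex (fun y => ind (No (spl H a y)))) = 0 := by
        intro y
        unfold ind
        rw [if_neg (fun h => hc h.2)]
      rw [Ex_congr this, Ex_const]
      exact div_nonneg hE.le (hp j).le
  have h2 : Pb (fun x => Yes x ∧ ∀ H, ¬ Cert No J k p H x) ≤
      ∑ j ∈ Finset.range J, ∑ H ∈ (Finset.univ : Finset (Finset (Fin n))).filter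
        (fun H => H.card ≤ k j), Pb (fun x => St j H x ∧ p j ≤ Pb (fun y => No (spl H x y))) := by
    unfold Pb
    simp_rw [← Ex_sum]
    refine Ex_mono fun x => ?_
    by_cases h : Yes x ∧ ∀ H, ¬ Cert No J k p H x
    · obtain ⟨hx, hH⟩ := h
      obtain ⟨j, hj, hm⟩ := scale (Q x) (hQ x) r θ (hr x hx) J hJ hJ2 δ hδ hδ1
      have hcard : (heavy (Q x) (δ j)).card ≤ k j := by
        have h3 := card_heavy (Q x) (hQ x) r (δ j) t (hr x hx) (ht x hx) (hδ0 j)
        have h4 := h3.trans_lt (hk j)
        have h5 : (heavy (Q x) (δ j)).card < k j + 1 := by exact_mod_cast h4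
        omega
      have hge : p j ≤ Ex (fun y => ind (No (spl (heavy (Q x) (δ j)) x y))) := by
        by_contra hcon
        exact hH (heavy (Q x) (δ j)) ⟨j, hj, hcard, not_le.1 hcon⟩
      have e1 : ind (Yes x ∧ ∀ H, ¬ Cert No J k p H x) = 1 := by
        unfold ind
        rw [if_pos ⟨hx, hH⟩]
      rw [e1]
      have e2 : ind (St j (heavy (Q x) (δ j)) x ∧
          p j ≤ Ex (fun y => ind (No (spl (heavy (Q x) (δ j)) x y)))) = 1 := by
        unfold ind
        rw [if_pos ⟨⟨hx, rfl, hm⟩, hge⟩]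
      calc (1 : ℝ) = ind (St j (heavy (Q x) (δ j)) x ∧
          p j ≤ Ex (fun y => ind (No (spl (heavy (Q x) (δ j)) x y)))) := e2.symm
        _ ≤ ∑ H ∈ (Finset.univ : Finset (Finset (Fin n))).filter (fun H => H.card ≤ k j),
            ind (St j H x ∧ p j ≤ Ex (fun y => ind (No (spl H x y)))) :=
          Finset.single_le_sum (f := fun H => ind (St j H x ∧
            p j ≤ Ex (fun y => ind (No (spl H x y)))))
            (fun _ _ => ind_nonneg _) (Finset.mem_filter.2 ⟨Finset.mem_univ _, hcard⟩)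
        _ ≤ _ := Finset.single_le_sum (f := fun j => ∑ H ∈ (Finset.univ :
            Finset (Finset (Fin n))).filter (fun H => H.card ≤ k j),
            ind (St j H x ∧ p j ≤ Ex (fun y => ind (No (spl H x y)))))
            (fun _ _ => Finset.sum_nonneg fun _ _ => ind_nonneg _) (Finset.mem_range.2 hj)
    · have e1 : ind (Yes x ∧ ∀ H, ¬ Cert No J k p H x) = 0 := by
        unfold ind
        rw [if_neg h]
      rw [e1]
      exact Finset.sum_nonneg fun _ _ => Finset.sum_nonneg fun _ _ => ind_nonneg _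
  refine h2.trans (Finset.sum_le_sum fun j _ => ?_)
  have h3 : 0 ≤ Real.exp (-(θ ^ 2 / (16 * (r * δ (j + 1))))) / p j :=
    div_nonneg (Real.exp_pos _).le (hp j).le
  calc ∑ H ∈ (Finset.univ : Finset (Finset (Fin n))).filter (fun H => H.card ≤ k j),
        Pb (fun x => St j H x ∧ p j ≤ Pb (fun y => No (spl H x y)))
      ≤ ∑ _H ∈ (Finset.univ : Finset (Finset (Fin n))).filter (fun H => H.card ≤ k j),
        Real.exp (-(θ ^ 2 / (16 * (r * δ (j + 1))))) / p j :=
        Finset.sum_le_sum fun H _ => h1 j H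
    _ = (((Finset.univ : Finset (Finset (Fin n))).filter fun H => H.card ≤ k j).card : ℝ) *
        (Real.exp (-(θ ^ 2 / (16 * (r * δ (j + 1))))) / p j) := by
        rw [Finset.sum_const, nsmul_eq_mul]
    _ ≤ _ := mul_le_mul_of_nonneg_right (card_small _) h3

/-- Small certificates, with all parameters chosen: `η` is the probability of an error, and the
certificates have at most `t + r * G ^ J` coordinates. -/
theorem core (Yes No : (Fin n → ℤˣ) → Prop) (Q : (Fin n → ℤˣ) → Fin n → ℝ)
    (hQ : ∀ x i, 0 ≤ Q x i) (r θ : ℝ) (t : ℕ) (hr0 : 0 < r)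
    (hr : ∀ x, Yes x → ∑ i, Q x i * ind (Q x i < 1) ≤ r)
    (ht : ∀ x, Yes x → (heavy (Q x) 1).card ≤ t)
    (hθ : 0 < θ) (hfar : ∀ x y, Yes x → No y → θ ≤ ∑ i, Q x i * ind (x i ≠ y i))
    (J : ℕ) (hJ : 1 ≤ J) (hJ2 : 2 * r ≤ J * θ) (η G : ℝ) (hη : 0 < η) (hη1 : η ≤ 1) (hG : 1 ≤ G)
    (hG2 : 16 * r * (2 * (t + r) * Real.log (n + 1) + 2 * Real.log (2 * J / η)) ≤ θ ^ 2 * G) :
    ∃ Ce : Finset (Fin n) → (Fin n → ℤˣ) → Prop,
      (∀ H a b, (∀ i ∈ H, a i = b i) → Ce H a → Ce H b) ∧
      (∀ H a, Ce H a → (H.card : ℝ) ≤ t + r * G ^ J) ∧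
      Pb (fun x => (Yes x ∧ ∀ H, ¬ Ce H x) ∨ (No x ∧ ∃ H, Ce H x)) ≤ η := by
  set δ : ℕ → ℝ := fun j => (G ^ j)⁻¹ with hδ
  set k : ℕ → ℕ := fun j => t + ⌊r * G ^ j⌋₊ with hk
  have hG0 : 0 < G := by linarith
  have hn0 : (0 : ℝ) < (n : ℝ) + 1 := by positivity
  have hJ0 : (0 : ℝ) < J := by exact_mod_cast hJ
  have ht0 : (0 : ℝ) ≤ t := Nat.cast_nonneg t
  set p : ℕ → ℝ := fun j => η / (2 * J * ((n : ℝ) + 1) ^ k j) with hp
  have hp0 : ∀ j, 0 < p j := fun j => by simp only [hp]; positivity
  have hkc : ∀ j, (k j : ℝ) ≤ t + r * G ^ j := by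
    intro j
    have h2 : ((⌊r * G ^ j⌋₊ : ℕ) : ℝ) ≤ r * G ^ j := Nat.floor_le (by positivity)
    simp only [hk]
    push_cast
    linarith
  refine ⟨Cert No J k p, fun H a b h hc => Cert_congr h hc, ?_, ?_⟩
  · rintro H a ⟨j, hj, hH, -⟩
    have h1 : (H.card : ℝ) ≤ k j := by exact_mod_cast hH
    have h2 := hkc j
    have h3 : G ^ j ≤ G ^ J := pow_le_pow_right₀ hG hj.le
    have h4 := mul_le_mul_of_nonneg_left h3 hr0.le
    linarith
  · have h1 := sound No J k p (fun j => (hp0 j).le)
    have h2 := complete Yes No Q hQ r θ t hr0 hr ht hθ hfar J hJ hJ2 δ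
      (fun j => by
        simp only [hδ]
        exact inv_anti₀ (by positivity) (pow_le_pow_right₀ hG (Nat.le_succ j)))
      (fun j => by simp only [hδ]; positivity)
      (fun j => by
        simp only [hδ]
        exact inv_le_one_of_one_le₀ (one_le_pow₀ hG)) k
      (fun j => by
        simp only [hδ, hk, div_inv_eq_mul]
        push_cast
        have := Nat.lt_floor_add_one (r * G ^ j)
        linarith) p hp0
    have h3 : ∑ j ∈ Finset.range J, ((n : ℝ) + 1) ^ k j * p j = η / 2 := by
      have e : ∀ j ∈ Finset.range J, ((n : ℝ) + 1) ^ k j * p j = η / (2 * J) := by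
        intro j _
        simp only [hp]
        field_simp
      rw [Finset.sum_congr rfl e, Finset.sum_const, Finset.card_range, nsmul_eq_mul]
      field_simp
    have h4 : ∑ j ∈ Finset.range J, ((n : ℝ) + 1) ^ k j *
        (Real.exp (-(θ ^ 2 / (16 * (r * δ (j + 1))))) / p j) ≤ η / 2 := by
      have e : ∀ j ∈ Finset.range J, ((n : ℝ) + 1) ^ k j *
          (Real.exp (-(θ ^ 2 / (16 * (r * δ (j + 1))))) / p j) ≤ η / (2 * J) := by
        intro j _
        have hGj : 1 ≤ G ^ j := one_le_pow₀ hG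
        have hkj : (k j : ℝ) ≤ (t + r) * G ^ j := by
          have h2 := hkc j
          have h3 : (t : ℝ) * 1 ≤ t * G ^ j := mul_le_mul_of_nonneg_left hGj ht0
          linarith
        have hlog : 0 ≤ Real.log ((n : ℝ) + 1) := Real.log_nonneg (by
          have : (0 : ℝ) ≤ n := Nat.cast_nonneg n
          linarith)
        have hlog2 : 0 ≤ Real.log (2 * J / η) := by
          apply Real.log_nonneg
          rw [le_div_iff₀ hη]
          have : (1 : ℝ) ≤ J := by exact_mod_cast hJ
          linarith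
        have e1 : θ ^ 2 / (16 * (r * δ (j + 1))) = θ ^ 2 * G ^ (j + 1) / (16 * r) := by
          simp only [hδ]
          field_simp
        have h5 : 2 * k j * Real.log (n + 1) + 2 * Real.log (2 * J / η) ≤
            θ ^ 2 / (16 * (r * δ (j + 1))) := by
          rw [e1, le_div_iff₀ (by positivity)]
          calc (2 * k j * Real.log (n + 1) + 2 * Real.log (2 * J / η)) * (16 * r)
              ≤ (2 * ((t + r) * G ^ j) * Real.log (n + 1) + 2 * Real.log (2 * J / η) * G ^ j)
                * (16 * r) := by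
                refine mul_le_mul_of_nonneg_right ?_ (by positivity)
                have h6 : 2 * (k j : ℝ) * Real.log (n + 1)
                    ≤ 2 * ((t + r) * G ^ j) * Real.log (n + 1) := by
                  gcongr
                have h7 : 2 * Real.log (2 * J / η) * 1 ≤ 2 * Real.log (2 * J / η) * G ^ j := by
                  gcongr
                linarith
            _ = 16 * r * (2 * (t + r) * Real.log (n + 1) + 2 * Real.log (2 * J / η)) * G ^ j := by
                ring
            _ ≤ θ ^ 2 * G * G ^ j := mul_le_mul_of_nonneg_right hG2 (by positivity)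
            _ = θ ^ 2 * G ^ (j + 1) := by ring
        have h6 : Real.exp (-(θ ^ 2 / (16 * (r * δ (j + 1))))) ≤
            ((((n : ℝ) + 1) ^ k j) ^ 2)⁻¹ * ((2 * J / η) ^ 2)⁻¹ := by
          calc Real.exp (-(θ ^ 2 / (16 * (r * δ (j + 1)))))
              ≤ Real.exp (-(2 * k j * Real.log (n + 1) + 2 * Real.log (2 * J / η))) :=
                Real.exp_le_exp.2 (by linarith)
            _ = _ := by
              have hq : (0 : ℝ) < 2 * J / η := by positivity
              have e2 : -(2 * (k j : ℝ) * Real.log (n + 1) + 2 * Real.log (2 * J / η)) =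
                  -(Real.log ((((n : ℝ) + 1) ^ k j) ^ 2)) + -(Real.log ((2 * J / η) ^ 2)) := by
                rw [Real.log_pow, Real.log_pow, Real.log_pow]
                push_cast
                ring
              rw [e2, Real.exp_add, Real.exp_neg, Real.exp_neg, Real.exp_log (by positivity),
                Real.exp_log (by positivity)]
        calc ((n : ℝ) + 1) ^ k j * (Real.exp (-(θ ^ 2 / (16 * (r * δ (j + 1))))) / p j)
            ≤ ((n : ℝ) + 1) ^ k j * (((((n : ℝ) + 1) ^ k j) ^ 2)⁻¹ * ((2 * J / η) ^ 2)⁻¹ / p j) := by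
              have := hp0 j
              gcongr
          _ = η / (2 * J) := by
              simp only [hp]
              field_simp
      calc _ ≤ ∑ _j ∈ Finset.range J, η / (2 * J) := Finset.sum_le_sum e
        _ = η / 2 := by
          rw [Finset.sum_const, Finset.card_range, nsmul_eq_mul]
          field_simp
    refine (Pb_or _ _).trans ?_
    linarith

end Pool.Agent.W938.QM
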