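import Pool.Agent.W938.QM.Dev

/-!
# From complex to real witness states
-/

set_option autoImplicit false
set_option linter.unusedSectionVars false

namespace Pool.Agent.W938.QM

open Finset Pool.Agent.NPC Pool.Agent.H620R2.Gauge Pool.Agent.W938.Hyb

variable {b : ℕ}

lemma circAct_smul {m : ℕ} (A : Oracle) (l : List Gate) (c : ℝ) (ψ : (Fin m → Bool) → ℝ)
    (s : Fin m → Bool) : circAct A l (fun s => c * ψ s) s = c * circAct A l ψ s := by
  have := circAct_lin A ({()} : Finset Unit) (fun _ => c) l (fun _ => ψ) s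
  simpa using this

lemma load_smul (m : ℕ) (c : ℝ) (u : (Fin b → Bool) → ℝ) :
    load m (fun t => c * u t) = fun s => c * load m u s := by
  funext s
  unfold load
  split_ifs
  · rfl
  · rw [mul_zero]

lemma accS_smul (A : Oracle) (l : List Gate) (m : ℕ) (c : ℝ) (u : (Fin b → Bool) → ℝ) :
    accS A l (load m fun t => c * u t) = c ^ 2 * accS A l (load m u) := by
  unfold accS
  rw [load_smul, Finset.mul_sum]
  refine Finset.sum_congr rfl fun s _ => ?_
  rw [circAct_smul]
  split_ifs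
  · ring
  · ring

lemma accS_le_norm (A : Oracle) (l : List Gate) (m : ℕ) (u : (Fin b → Bool) → ℝ) :
    accS A l (load m u) ≤ ∑ t, u t ^ 2 := by
  rw [← load_norm (m := m), ← circ_norm A l]
  unfold accS
  refine Finset.sum_le_sum fun s _ => ?_
  split_ifs
  · exact le_rfl
  · positivity

lemma accW_eq (A : Oracle) (l : List Gate) (m : ℕ) (ψ : (Fin b → Bool) → ℂ) :
    accW A l m ψ = accS A l (load m fun t => (ψ t).re) + accS A l (load m fun t => (ψ t).im) := by
  unfold accW accS
  rw [← Finset.sum_add_distrib]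
  refine Finset.sum_congr rfl fun s _ => ?_
  split_ifs
  · rfl
  · rw [add_zero]

lemma norm_eq (ψ : (Fin b → Bool) → ℂ) :
    ∑ t, ‖ψ t‖ ^ 2 = ∑ t, (ψ t).re ^ 2 + ∑ t, (ψ t).im ^ 2 := by
  rw [← Finset.sum_add_distrib]
  refine Finset.sum_congr rfl fun t _ => ?_
  rw [Complex.sq_norm, Complex.normSq_apply]
  ring

/-- If a complex witness state is accepted with probability at least `2/3`, then so is a real
one. -/
lemma real_yes (A : Oracle) (l : List Gate) (m : ℕ) (ψ : (Fin b → Bool) → ℂ)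
    (hψ : ∑ t, ‖ψ t‖ ^ 2 = 1) (h : 2 / 3 ≤ accW A l m ψ) :
    ∃ u : (Fin b → Bool) → ℝ, ∑ t, u t ^ 2 = 1 ∧ 2 / 3 ≤ accS A l (load m u) := by
  by_contra hc
  push Not at hc
  have key : ∀ v : (Fin b → Bool) → ℝ, (0 < ∑ t, v t ^ 2 →
      accS A l (load m v) < 2 / 3 * ∑ t, v t ^ 2) ∧ accS A l (load m v) ≤ 2 / 3 * ∑ t, v t ^ 2 := by
    intro v
    have h1 : 0 < ∑ t, v t ^ 2 → accS A l (load m v) < 2 / 3 * ∑ t, v t ^ 2 := by
      intro hpos
      set a := ∑ t, v t ^ 2 with ha
      have hs : Real.sqrt a ^ 2 = a := Real.sq_sqrt hpos.le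
      have hs0 : 0 < Real.sqrt a := Real.sqrt_pos.2 hpos
      have h2 := hc (fun t => (Real.sqrt a)⁻¹ * v t) (by
        simp only [mul_pow, inv_pow, hs]
        rw [← Finset.mul_sum, ← ha]
        field_simp)
      rw [accS_smul, inv_pow, hs, inv_mul_lt_iff₀ hpos] at h2
      linarith
    refine ⟨h1, ?_⟩
    have h0 : 0 ≤ ∑ t, v t ^ 2 := Finset.sum_nonneg fun t _ => sq_nonneg _
    rcases h0.eq_or_lt with h2 | h2
    · have h3 := accS_le_norm A l m v
      rw [← h2] at h3 ⊢
      linarith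
    · exact (h1 h2).le
  rw [accW_eq] at h
  rw [norm_eq] at hψ
  have hre := key fun t => (ψ t).re
  have him := key fun t => (ψ t).im
  have h0 : 0 ≤ ∑ t, (ψ t).re ^ 2 := Finset.sum_nonneg fun t _ => sq_nonneg _
  rcases h0.eq_or_lt with h2 | h2
  · have h3 : 0 < ∑ t, (ψ t).im ^ 2 := by linarith
    have h4 := him.1 h3
    have h5 := hre.2
    linarith
  · have h4 := hre.1 h2
    have h5 := him.2
    linarith

/-- If all complex witness states are accepted with probability at most `1/3`, then so are the real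
ones. -/
lemma real_no (A : Oracle) (l : List Gate) (m : ℕ)
    (h : ∀ ψ : (Fin b → Bool) → ℂ, ∑ t, ‖ψ t‖ ^ 2 = 1 → accW A l m ψ ≤ 1 / 3)
    (u : (Fin b → Bool) → ℝ) (hu : ∑ t, u t ^ 2 = 1) : accS A l (load m u) ≤ 1 / 3 := by
  have h1 := h (fun t => (u t : ℂ)) (by
    rw [norm_eq]
    simpa using hu)
  rw [accW_eq] at h1
  have h2 : 0 ≤ accS A l (load m fun t => ((u t : ℂ)).im) := by
    unfold accS
    refine Finset.sum_nonneg fun s _ => ?_
    split_ifs
    · positivity
    · exact le_rfl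
  have h3 : (fun t => ((u t : ℂ)).re) = u := by
    funext t
    simp
  rw [h3] at h1
  linarith

end Pool.Agent.W938.QM
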